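import Pool.Agent.H96.LK3.Tail

/-!
# LK4 CondTail: the conditional probability of `D`, given `A`, is small

`W A r D = ∏_{p ∈ D} r_p ∏_{p ∈ A - D} (1 - r_p)`.  For `1 < b W`: `1 ≤ (b W)^θ`; so the sum is at most
`b^θ ∏_p (1 - q_p + q_p (r_p^(1+θ) + (1-r_p)^(1+θ)))` and
`r^(1+θ) + (1-r)^(1+θ) ≤ 1 - (θ - θ^2/2) h(r)`, by `exp (-u) ≤ 1 - u + u^2/2` (`0 ≤ u`; see `tail_exp`
in LK3/Tail) and `(log r)^2 ≤ -log r`, `(log (1-r))^2 ≤ -log (1-r)`.
-/

set_option autoImplicit false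

namespace Pool.Agent.H96.LK4

open Finset Filter Topology Pool.Agent.H96.LK3

private theorem CondTail_exp {x : ℝ} (hx : x ≤ 0) : Real.exp x ≤ 1 + x + x ^ 2 / 2 := by
  have h := Real.quadratic_le_exp_of_nonneg (neg_nonneg.2 hx)
  have h1 : 0 < Real.exp x := Real.exp_pos x
  have h2 : Real.exp x * Real.exp (-x) = 1 := by
    rw [← Real.exp_add]
    simp
  have h3 : 0 < 1 + -x + (-x) ^ 2 / 2 := by nlinarith [sq_nonneg x]
  have h4 : Real.exp x * (1 + -x + (-x) ^ 2 / 2) ≤ 1 :=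
    (mul_le_mul_of_nonneg_left h h1.le).trans_eq h2
  have h5 : 1 ≤ (1 + x + x ^ 2 / 2) * (1 + -x + (-x) ^ 2 / 2) := by
    have : (1 + x + x ^ 2 / 2) * (1 + -x + (-x) ^ 2 / 2) = 1 + (x ^ 2) ^ 2 / 4 := by ring
    rw [this]
    have := sq_nonneg (x ^ 2)
    linarith
  exact le_of_mul_le_mul_right (h4.trans h5) h3

private theorem CondTail_rpow {x θ : ℝ} (h0 : 0 < x) (h1 : x ≤ 1) (hl : -Real.log x ≤ 1)
    (hθ : 0 ≤ θ) : x ^ (1 + θ) ≤ x + (θ - θ ^ 2 / 2) * (x * Real.log x) := by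
  have h2 : Real.log x ≤ 0 := Real.log_nonpos h0.le h1
  have h3 : x ^ (1 + θ) = x * Real.exp (θ * Real.log x) := by
    rw [Real.rpow_add h0, Real.rpow_one, Real.rpow_def_of_pos h0, mul_comm (Real.log x)]
  have h4 := CondTail_exp (x := θ * Real.log x) (mul_nonpos_of_nonneg_of_nonpos hθ h2)
  have h5 : (Real.log x) ^ 2 ≤ -Real.log x := by nlinarith
  rw [h3]
  have h6 : (θ * Real.log x) ^ 2 / 2 ≤ θ ^ 2 / 2 * (-Real.log x) := by
    have h7 : (θ * Real.log x) ^ 2 / 2 = θ ^ 2 / 2 * (Real.log x) ^ 2 := by ring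
    rw [h7]
    exact mul_le_mul_of_nonneg_left h5 (by positivity)
  calc x * Real.exp (θ * Real.log x) ≤
        x * (1 + θ * Real.log x + θ ^ 2 / 2 * (-Real.log x)) :=
        mul_le_mul_of_nonneg_left (h4.trans (by linarith)) h0.le
    _ = x + (θ - θ ^ 2 / 2) * (x * Real.log x) := by ring

private theorem CondTail_factor {r θ : ℝ} (h0 : 1 / 2 ≤ r) (h1 : r < 1)
    (hl : -Real.log (1 - r) ≤ 1) (hθ : 0 ≤ θ) :
    r ^ (1 + θ) + (1 - r) ^ (1 + θ) ≤ 1 - (θ - θ ^ 2 / 2) * Real.binEntropy r := by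
  have hr0 : 0 < r := by linarith
  have hlr : -Real.log r ≤ 1 := by
    have h2 : Real.log (1 - r) ≤ Real.log r := Real.log_le_log (by linarith) (by linarith)
    linarith
  have h2 := CondTail_rpow hr0 h1.le hlr hθ
  have h3 := CondTail_rpow (x := 1 - r) (by linarith) (by linarith) hl hθ
  have h5 : Real.binEntropy r = -(r * Real.log r) - (1 - r) * Real.log (1 - r) := by
    rw [Real.binEntropy, Real.log_inv, Real.log_inv]
    ring
  rw [h5]
  have h6 : 1 - (θ - θ ^ 2 / 2) * (-(r * Real.log r) - (1 - r) * Real.log (1 - r)) =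
      (r + (θ - θ ^ 2 / 2) * (r * Real.log r)) +
        ((1 - r) + (θ - θ ^ 2 / 2) * ((1 - r) * Real.log (1 - r))) := by ring
  rw [h6]
  exact add_le_add h2 h3

private theorem CondTail_sum (P : Finset ℕ) (q e : ℕ → ℝ) :
    ∑ A ∈ P.powerset, W P q A * ∏ p ∈ A, e p = ∏ p ∈ P, (1 + q p * (e p - 1)) := by
  have h : ∏ p ∈ P, (1 + q p * (e p - 1)) = ∏ p ∈ P, (q p * e p + (1 - q p)) :=
    prod_congr rfl fun p _ => by ring
  rw [h, prod_add]
  refine sum_congr rfl fun A _ => ?_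
  unfold W
  rw [prod_mul_distrib]
  ring

private theorem CondTail_nonneg {P : Finset ℕ} {q : ℕ → ℝ} (hq : ∀ p ∈ P, 0 ≤ q p ∧ q p ≤ 1)
    {A : Finset ℕ} (hA : A ⊆ P) : 0 ≤ W P q A := by
  unfold W
  refine mul_nonneg (prod_nonneg fun p hp => (hq p (hA hp)).1) (prod_nonneg fun p hp => ?_)
  have := (hq p (mem_sdiff.1 hp).1).2
  linarith

private theorem CondTail_rpow_sum (A : Finset ℕ) (r : ℕ → ℝ) (hr : ∀ p ∈ A, 0 ≤ r p ∧ r p ≤ 1)
    (θ : ℝ) : ∑ D ∈ A.powerset, (W A r D) ^ (1 + θ) =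
      ∏ p ∈ A, ((r p) ^ (1 + θ) + (1 - r p) ^ (1 + θ)) := by
  rw [prod_add]
  refine sum_congr rfl fun D hD => ?_
  have h4 := mem_powerset.1 hD
  unfold W
  rw [Real.mul_rpow (prod_nonneg fun p hp => (hr p (h4 hp)).1)
    (prod_nonneg fun p hp => by linarith [(hr p (mem_sdiff.1 hp).1).2]),
    Real.finsetProd_rpow D r (fun p hp => (hr p (h4 hp)).1),
    Real.finsetProd_rpow (A \ D) (fun p => 1 - r p)
      (fun p hp => by linarith [(hr p (mem_sdiff.1 hp).1).2])]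

theorem tail_cond (P : Finset ℕ) (q r : ℕ → ℝ) (hq : ∀ p ∈ P, 0 ≤ q p ∧ q p ≤ 1)
    (hr : ∀ p ∈ P, 1 / 2 ≤ r p ∧ r p < 1 ∧ -Real.log (1 - r p) ≤ 1) (b θ : ℝ) (hb : 0 < b)
    (hθ : 0 ≤ θ) :
    ∑ A ∈ P.powerset, W P q A * ∑ D ∈ A.powerset.filter (fun D => 1 < b * W A r D), W A r D ≤
      Real.exp (θ * Real.log b - (θ - θ ^ 2 / 2) * ∑ p ∈ P, q p * Real.binEntropy (r p)) := by
  set e : ℕ → ℝ := fun p => (r p) ^ (1 + θ) + (1 - r p) ^ (1 + θ) with he
  have hr' : ∀ p ∈ P, 0 ≤ r p ∧ r p ≤ 1 := fun p hp =>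
    ⟨by linarith [(hr p hp).1], (hr p hp).2.1.le⟩
  have hb' : 0 < b ^ θ := Real.rpow_pos_of_pos hb _
  have h1 : ∀ A ∈ P.powerset,
      ∑ D ∈ A.powerset.filter (fun D => 1 < b * W A r D), W A r D ≤ b ^ θ * ∏ p ∈ A, e p := by
    intro A hA
    have hAP := mem_powerset.1 hA
    have hrA : ∀ p ∈ A, 0 ≤ r p ∧ r p ≤ 1 := fun p hp => hr' p (hAP hp)
    rw [he, ← CondTail_rpow_sum A r hrA θ, mul_sum]
    refine (sum_le_sum (g := fun D => b ^ θ * (W A r D) ^ (1 + θ)) fun D hD => ?_).trans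
      (sum_le_sum_of_subset_of_nonneg (filter_subset _ _) fun D hD _ => ?_)
    · obtain ⟨hD1, hD2⟩ := mem_filter.1 hD
      have h2 : 0 ≤ W A r D := CondTail_nonneg hrA (mem_powerset.1 hD1)
      have h3 : 0 < W A r D := by
        rcases h2.eq_or_lt with h | h
        · rw [← h, mul_zero] at hD2
          linarith
        · exact h
      have h4 : 1 ≤ (b * W A r D) ^ θ := Real.one_le_rpow hD2.le hθ
      calc W A r D = W A r D * 1 := (mul_one _).symm
        _ ≤ W A r D * (b * W A r D) ^ θ := mul_le_mul_of_nonneg_left h4 h2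
        _ = b ^ θ * (W A r D) ^ (1 + θ) := by
            rw [Real.mul_rpow hb.le h2, Real.rpow_add h3, Real.rpow_one]
            ring
    · exact mul_nonneg hb'.le
        (Real.rpow_nonneg (CondTail_nonneg hrA (mem_powerset.1 hD)) _)
  have h2 : ∑ A ∈ P.powerset,
      W P q A * ∑ D ∈ A.powerset.filter (fun D => 1 < b * W A r D), W A r D ≤
      b ^ θ * ∏ p ∈ P, (1 + q p * (e p - 1)) := by
    rw [← CondTail_sum P q e, mul_sum]
    refine sum_le_sum fun A hA => ?_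
    have h3 := mul_le_mul_of_nonneg_left (h1 A hA) (CondTail_nonneg hq (mem_powerset.1 hA))
    refine h3.trans_eq (by ring)
  refine h2.trans ?_
  have h3 : ∏ p ∈ P, (1 + q p * (e p - 1)) ≤
      Real.exp (-((θ - θ ^ 2 / 2) * ∑ p ∈ P, q p * Real.binEntropy (r p))) := by
    rw [mul_sum, ← sum_neg_distrib, Real.exp_sum]
    refine prod_le_prod (fun p hp => ?_) fun p hp => ?_
    · have h4 := hq p hp
      have h5 := hr' p hp
      have h6 : 0 ≤ e p := add_nonneg (Real.rpow_nonneg h5.1 _)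
        (Real.rpow_nonneg (by linarith [h5.2]) _)
      have h7 := mul_nonneg h4.1 h6
      have : 1 + q p * (e p - 1) = (1 - q p) + q p * e p := by ring
      rw [this]
      linarith [h4.2]
    · have h4 := hq p hp
      obtain ⟨h5, h6, h7⟩ := hr p hp
      have h8 : e p ≤ 1 - (θ - θ ^ 2 / 2) * Real.binEntropy (r p) := CondTail_factor h5 h6 h7 hθ
      have h9 : q p * (e p - 1) ≤ -((θ - θ ^ 2 / 2) * (q p * Real.binEntropy (r p))) := by
        have h10 := mul_le_mul_of_nonneg_left (show e p - 1 ≤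
          -((θ - θ ^ 2 / 2) * Real.binEntropy (r p)) by linarith) h4.1
        refine h10.trans_eq (by ring)
      have h11 := Real.add_one_le_exp (-((θ - θ ^ 2 / 2) * (q p * Real.binEntropy (r p))))
      linarith
  refine (mul_le_mul_of_nonneg_left h3 hb'.le).trans_eq ?_
  rw [Real.rpow_def_of_pos hb, ← Real.exp_add]
  congr 1
  ring

end Pool.Agent.H96.LK4
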