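import Pool.Agent.H96.LK3.Core

/-!
# LK4 Core2: the finite counting lemma for a biased random subset

As `core` of LK3/Core, with `D ⊆ A` of conditional weight `W A r D` in place of `2^(-|A|)` (the second
marginal of `W P q A * W A r D` is `W P (q r)`).  If `A ∈ S` then the part of the `D ⊆ A` in `S` with
`8 k W A r D ≤ 1` is at most `k / (8 k) = 1/8`.  So
`1 ≤ 1/8 + 1/8 + 1/8 + W P q (R) + W P (q r) (R)`, one of the last two is `≥ 1/4`, and
`W_family_le` gives the result as in `core`.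
-/

set_option autoImplicit false

namespace Pool.Agent.H96.LK4

open Finset Filter Topology Pool.Agent.H96.LK3

private theorem core2_nonneg {P : Finset ℕ} {q : ℕ → ℝ} (hq : ∀ p ∈ P, 0 ≤ q p ∧ q p ≤ 1)
    {A : Finset ℕ} (hA : A ⊆ P) : 0 ≤ W P q A := by
  unfold W
  refine mul_nonneg (prod_nonneg fun p hp => (hq p (hA hp)).1) (prod_nonneg fun p hp => ?_)
  have := (hq p (mem_sdiff.1 hp).1).2
  linarith

private theorem core2_sum (P : Finset ℕ) (q : ℕ → ℝ) : ∑ A ∈ P.powerset, W P q A = 1 := by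
  unfold W
  rw [← prod_add]
  refine prod_eq_one fun p _ => ?_
  ring

private theorem core2_marg {P : Finset ℕ} (q r : ℕ → ℝ) {D : Finset ℕ} (hD : D ⊆ P) :
    ∑ A ∈ P.powerset.filter (fun A => D ⊆ A), W P q A * W A r D =
      W P (fun p => q p * r p) D := by
  have h1 : W P (fun p => q p * r p) D =
      ∑ B ∈ (P \ D).powerset, (∏ p ∈ D, q p * r p) *
        ((∏ p ∈ B, q p * (1 - r p)) * ∏ p ∈ (P \ D) \ B, (1 - q p)) := by
    unfold W
    rw [← mul_sum, ← prod_add]
    congr 1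
    refine prod_congr rfl fun p _ => ?_
    ring
  rw [h1]
  refine sum_nbij' (fun A => A \ D) (fun B => D ∪ B) ?_ ?_ ?_ ?_ ?_
  · intro A hA
    rw [mem_filter, mem_powerset] at hA
    rw [mem_powerset]
    exact sdiff_subset_sdiff hA.1 subset_rfl
  · intro B hB
    rw [mem_powerset] at hB
    rw [mem_filter, mem_powerset]
    exact ⟨union_subset hD (hB.trans sdiff_subset), subset_union_left⟩
  · intro A hA
    rw [mem_filter] at hA
    exact union_sdiff_of_subset hA.2
  · intro B hB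
    rw [mem_powerset] at hB
    have h2 : Disjoint D B := disjoint_of_subset_right hB disjoint_sdiff
    exact union_sdiff_cancel_left h2
  · intro A hA
    rw [mem_filter, mem_powerset] at hA
    have h2 : (P \ D) \ (A \ D) = P \ A := by
      ext p
      simp only [Finset.mem_sdiff]
      constructor
      · rintro ⟨⟨h3, h4⟩, h5⟩
        exact ⟨h3, fun h6 => h5 ⟨h6, h4⟩⟩
      · rintro ⟨h3, h4⟩
        exact ⟨⟨h3, fun h5 => h4 (hA.2 h5)⟩, fun h5 => h4 h5.1⟩
    have h3 : ∏ p ∈ A, q p = (∏ p ∈ A \ D, q p) * ∏ p ∈ D, q p := (prod_sdiff hA.2).symm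
    rw [h2]
    unfold W
    rw [h3, prod_mul_distrib, prod_mul_distrib]
    ring

private theorem core2_prod_le {P : Finset ℕ} (hP : ∀ p ∈ P, p.Prime) {A D : Finset ℕ}
    (hA : A ⊆ P) (hD : D ⊆ A) : ((∏ p ∈ D, p : ℕ) : ℝ) ≤ ((∏ p ∈ A, p : ℕ) : ℝ) := by
  have h1 : ∏ p ∈ D, p ∣ ∏ p ∈ A, p := prod_dvd_prod_of_subset _ _ _ hD
  have h2 : 0 < ∏ p ∈ A, p := prod_pos fun p hp => (hP p (hA hp)).pos
  exact_mod_cast Nat.le_of_dvd h2 h1

theorem core2 (P : Finset ℕ) (hP : ∀ p ∈ P, p.Prime) (q r : ℕ → ℝ)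
    (hq : ∀ p ∈ P, 0 ≤ q p ∧ q p ≤ 1) (hr : ∀ p ∈ P, 0 ≤ r p ∧ r p ≤ 1) (k : ℕ) (hk : 1 ≤ k)
    (S : Finset (Finset ℕ))
    (hS : ∀ A ∈ S, A ⊆ P → (A.powerset.filter (fun D => D ∈ S)).card ≤ k)
    (m η δ E : ℝ)
    (h1 : ∑ A ∈ P.powerset, W P q A *
      ∑ D ∈ A.powerset.filter (fun D => 1 < 8 * (k : ℝ) * W A r D), W A r D ≤ 1 / 8)
    (h2 : ∑ A ∈ P.powerset.filter (fun A => m < ((∏ p ∈ A, p : ℕ) : ℝ)), W P q A ≤ 1 / 8)
    (h4 : 0 < η) (h5 : η ≤ 1) (h6 : -η * δ + η ^ 2 * P.card ≤ -3)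
    (h7 : E ≤ ∑ p ∈ P, Real.binEntropy (q p))
    (h8 : E ≤ ∑ p ∈ P, Real.binEntropy (q p * r p)) :
    Real.exp (E - δ) / 8 ≤
      ((P.powerset.filter (fun M => ((∏ p ∈ M, p : ℕ) : ℝ) ≤ m ∧ M ∉ S)).card : ℝ) := by
  set R : Finset (Finset ℕ) := P.powerset.filter (fun M => ((∏ p ∈ M, p : ℕ) : ℝ) ≤ m ∧ M ∉ S)
    with hR
  have hRP : R ⊆ P.powerset := filter_subset _ _
  have hW : ∀ A ∈ P.powerset, 0 ≤ W P q A := fun A hA => core2_nonneg hq (mem_powerset.1 hA)
  have hWr : ∀ A ∈ P.powerset, ∀ D : Finset ℕ, D ⊆ A → 0 ≤ W A r D := fun A hA D hD =>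
    core2_nonneg (fun p hp => hr p (mem_powerset.1 hA hp)) hD
  have hk0 : (0 : ℝ) < k := by exact_mod_cast hk
  set T : Finset ℕ → ℝ := fun A =>
    ∑ D ∈ A.powerset.filter (fun D => 1 < 8 * (k : ℝ) * W A r D), W A r D with hT
  have hT0 : ∀ A ∈ P.powerset, 0 ≤ T A := fun A hA => sum_nonneg fun D hD =>
    hWr A hA D (mem_powerset.1 (mem_filter.1 hD).1)
  -- the pointwise inequality
  have hpt : ∀ A ∈ P.powerset, W P q A ≤ W P q A * T A +
      (if m < ((∏ p ∈ A, p : ℕ) : ℝ) then W P q A else 0) + (if A ∈ R then W P q A else 0) +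
      1 / 8 * W P q A + ∑ D ∈ R, if D ⊆ A then W P q A * W A r D else 0 := by
    intro A hA
    have hA0 := hW A hA
    have hi1 : 0 ≤ W P q A * T A := mul_nonneg hA0 (hT0 A hA)
    have hi2 : 0 ≤ (if m < ((∏ p ∈ A, p : ℕ) : ℝ) then W P q A else 0) := by
      split_ifs <;> simp [hA0]
    have hi3 : 0 ≤ (if A ∈ R then W P q A else 0) := by split_ifs <;> simp [hA0]
    have hi4 : 0 ≤ ∑ D ∈ R, if D ⊆ A then W P q A * W A r D else 0 := by
      refine sum_nonneg fun D _ => ?_
      split_ifs with h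
      · exact mul_nonneg hA0 (hWr A hA D h)
      · exact le_rfl
    by_cases hc2 : m < ((∏ p ∈ A, p : ℕ) : ℝ)
    · rw [if_pos hc2]
      linarith
    by_cases hc3 : A ∈ R
    · rw [if_pos hc3]
      linarith
    have hAP : A ⊆ P := mem_powerset.1 hA
    have hAS : A ∈ S := by
      by_contra hn
      exact hc3 (mem_filter.2 ⟨hA, not_lt.1 hc2, hn⟩)
    have hkS := hS A hAS hAP
    have e1 : ∑ D ∈ A.powerset.filter (fun D => D ∈ S), W A r D +
        ∑ D ∈ A.powerset.filter (fun D => D ∉ S), W A r D = 1 := by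
      rw [sum_filter_add_sum_filter_not, core2_sum]
    have e2 : A.powerset.filter (fun D => D ∉ S) ⊆ R.filter (fun D => D ⊆ A) := by
      intro D hD
      rw [mem_filter, mem_powerset] at hD
      rw [mem_filter, hR, mem_filter, mem_powerset]
      exact ⟨⟨hD.1.trans hAP, (core2_prod_le hP hAP hD.1).trans (not_lt.1 hc2), hD.2⟩, hD.1⟩
    have e3 : ∑ D ∈ A.powerset.filter (fun D => D ∉ S), W A r D ≤
        ∑ D ∈ R.filter (fun D => D ⊆ A), W A r D :=
      sum_le_sum_of_subset_of_nonneg e2 fun D hD _ => hWr A hA D (mem_filter.1 hD).2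
    have e4 : ∑ D ∈ A.powerset.filter (fun D => D ∈ S), W A r D ≤ T A + 1 / 8 := by
      rw [← sum_filter_add_sum_filter_not (A.powerset.filter (fun D => D ∈ S))
        (fun D => 1 < 8 * (k : ℝ) * W A r D)]
      refine add_le_add ?_ ?_
      · refine sum_le_sum_of_subset_of_nonneg ?_ ?_
        · intro D hD
          rw [mem_filter, mem_filter] at hD
          rw [mem_filter]
          exact ⟨hD.1.1, hD.2⟩
        · intro D hD _
          exact hWr A hA D (mem_powerset.1 (mem_filter.1 hD).1)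
      · calc _ ≤ ∑ D ∈ (A.powerset.filter (fun D => D ∈ S)).filter
              (fun D => ¬ 1 < 8 * (k : ℝ) * W A r D), 1 / (8 * (k : ℝ)) := by
              refine sum_le_sum fun D hD => ?_
              have h := not_lt.1 (mem_filter.1 hD).2
              rw [le_div_iff₀ (by positivity)]
              linarith
          _ ≤ k * (1 / (8 * (k : ℝ))) := by
              rw [sum_const, nsmul_eq_mul]
              refine mul_le_mul_of_nonneg_right ?_ (by positivity)
              have h := (card_le_card (filter_subset (fun D => ¬ 1 < 8 * (k : ℝ) * W A r D)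
                (A.powerset.filter (fun D => D ∈ S)))).trans hkS
              exact_mod_cast h
          _ = 1 / 8 := by
              field_simp
    have e5 : ∑ D ∈ R, (if D ⊆ A then W P q A * W A r D else 0) =
        W P q A * ∑ D ∈ R.filter (fun D => D ⊆ A), W A r D := by
      rw [← sum_filter, mul_sum]
    have e6 : 1 ≤ T A + 1 / 8 + ∑ D ∈ R.filter (fun D => D ⊆ A), W A r D := by linarith
    have e7 := mul_le_mul_of_nonneg_left e6 hA0
    rw [e5]
    have e8 : W P q A * (T A + 1 / 8 + ∑ D ∈ R.filter (fun D => D ⊆ A), W A r D) =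
        W P q A * T A + 1 / 8 * W P q A + W P q A * ∑ D ∈ R.filter (fun D => D ⊆ A), W A r D := by
      ring
    rw [e8, mul_one] at e7
    linarith
  -- the sum
  have hsum := sum_le_sum hpt
  rw [sum_add_distrib, sum_add_distrib, sum_add_distrib, sum_add_distrib, ← mul_sum, core2_sum,
    ← sum_filter, ← sum_filter] at hsum
  have hRf : P.powerset.filter (fun A => A ∈ R) = R := by
    ext A
    rw [mem_filter]
    exact ⟨fun h => h.2, fun h => ⟨hRP h, h⟩⟩
  have hcomm : ∑ A ∈ P.powerset, ∑ D ∈ R, (if D ⊆ A then W P q A * W A r D else 0) =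
      ∑ D ∈ R, W P (fun p => q p * r p) D := by
    rw [sum_comm]
    refine sum_congr rfl fun D hD => ?_
    rw [← sum_filter]
    exact core2_marg q r (mem_powerset.1 (hRP hD))
  rw [hRf, hcomm] at hsum
  have hw : 1 / 2 ≤ ∑ A ∈ R, W P q A + ∑ D ∈ R, W P (fun p => q p * r p) D := by linarith
  have hexp3 : Real.exp (-η * δ + η ^ 2 * P.card) ≤ 1 / 8 := by
    have e1 : Real.exp (-η * δ + η ^ 2 * P.card) ≤ Real.exp (-3) := Real.exp_le_exp.2 h6
    have e2 : (8 : ℝ) ≤ Real.exp 3 := by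
      have e3 : Real.exp 3 = Real.exp 1 ^ 3 := by
        rw [← Real.exp_nat_mul]
        norm_num
      have e4 : (2 : ℝ) ≤ Real.exp 1 := by
        have := Real.exp_one_gt_d9
        linarith
      rw [e3]
      calc (8 : ℝ) = 2 ^ 3 := by norm_num
        _ ≤ _ := pow_le_pow_left₀ (by norm_num) e4 3
    have e3 : Real.exp (-3) ≤ 1 / 8 := by
      rw [Real.exp_neg, inv_eq_one_div]
      exact one_div_le_one_div_of_le (by norm_num) e2
    exact e1.trans e3
  have hfin : ∀ H : ℝ, E ≤ H → 1 / 4 ≤ Real.exp (-H + δ) * R.card +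
      Real.exp (-η * δ + η ^ 2 * P.card) → Real.exp (E - δ) / 8 ≤ (R.card : ℝ) := by
    intro H hH h9
    have e1 : Real.exp (-H + δ) ≤ Real.exp (-(E - δ)) := Real.exp_le_exp.2 (by linarith)
    have e2 : 1 / 8 ≤ Real.exp (-(E - δ)) * R.card := by
      have := mul_le_mul_of_nonneg_right e1 (Nat.cast_nonneg R.card)
      linarith
    have e3 : Real.exp (E - δ) * Real.exp (-(E - δ)) = 1 := by
      rw [← Real.exp_add]
      simp
    have e4 := mul_le_mul_of_nonneg_left e2 (Real.exp_pos (E - δ)).le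
    rw [← mul_assoc, e3, one_mul] at e4
    linarith
  rcases le_total (1 / 4) (∑ A ∈ R, W P q A) with h9 | h9
  · exact hfin _ h7 (h9.trans (W_family_le P q hq R hRP η δ h4 h5))
  · have h10 : 1 / 4 ≤ ∑ D ∈ R, W P (fun p => q p * r p) D := by linarith
    refine hfin _ h8 (h10.trans (W_family_le P (fun p => q p * r p) (fun p hp => ?_) R hRP η δ
      h4 h5))
    have h11 := hq p hp
    have h12 := hr p hp
    exact ⟨mul_nonneg h11.1 h12.1, mul_le_one₀ h11.2 h12.1 h12.2⟩

end Pool.Agent.H96.LK4
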