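import Pool.Agent.H96.LK3.Defs

/-!
# Project LK4 (MP_afae12_nt): `1 - c_k` for large `k` up to a factor `exp ((log k) ^ (9/10))`

`σ = log 2 / log y`, `ww σ p = (1 - p^(-σ))^(-1/σ)`.  Aim: for large `k`,
`log (1 / (1 - c_k)) = max_{y ≥ 2} (log k * log y / log 2 - LL y) + O ((log k)^(9/10))`.

The lower bound is the construction of LK3 (`gk_ge_quick`); the upper bound takes a random set `A`
of primes (`p` with probability `ff y p`) and a random subset `D` of it (`p` with probability
`rr y p`); the two are dual: see `dual`.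
-/

set_option autoImplicit false

namespace Pool.Agent.H96.LK4

open Finset Filter Topology Pool.Agent.H96.KMF Pool.Agent.H96.LK3

/-- `σ`, with `y ^ σ = 2`. -/
noncomputable def sg (y : ℝ) : ℝ := Real.log 2 / Real.log y

/-- the logarithm of the Euler factor. -/
noncomputable def lw (y : ℝ) (p : ℕ) : ℝ :=
  if (p : ℝ) ≤ y then Real.log (2 * y / p) else Real.log (1 + (ww (sg y) p - 1) / p)

/-- the sum over all primes. -/
noncomputable def LL (y : ℝ) : ℝ := ∑' p : ℕ, if p.Prime then lw y p else 0

/-- conditional probability of `p ∣ d`, given `p ∣ a`. -/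
noncomputable def rr (y : ℝ) (p : ℕ) : ℝ := max (1 / 2) (1 - (p : ℝ) ^ (-sg y))

noncomputable def tt (y : ℝ) (p : ℕ) : ℝ := ((1 - rr y p) / rr y p) ^ (1 / sg y)

/-- probability of `p ∣ a`. -/
noncomputable def ff (y : ℝ) (p : ℕ) : ℝ := tt y p / ((1 + tt y p) * rr y p)

/-- conditional entropy of `d`, given `a`. -/
noncomputable def HH (y X : ℝ) : ℝ := ∑ p ∈ PP X, ff y p * Real.binEntropy (rr y p)

end Pool.Agent.H96.LK4
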