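import Pool.Agent.H96.LK4.Defs

/-!
# LK4 Dual: closed forms, duality

`p ≤ y`: `p^(-σ) ≥ y^(-σ) = 1/2`, so `rr = 1/2`, `tt = 1`, `ff = 1`.
`p > y`: `rr = r = 1 - p^(-σ) > 1/2`, `tt = ((1-r)/r)^(1/σ) = ww/p` (as `(1-r)^(1/σ) = 1/p`).
`ff ≤ 1`: `t/(1+t) ≤ r` iff `t ≤ r/(1-r)`, true as `t ≤ 1 ≤ r/(1-r)`.

`dual`: in fact `ff log p - h (ff rr) = (1/σ) ff h(rr) - log (1 + ww/p)` for `p > y` (`h` binary
entropy): with `u = ff rr = t/(1+t)`: `h u = log (1+t) - u log t`,
`log t = (1/σ) log ((1-r)/r)`, `h r = -log (1-r) - r log (r/(1-r))`, `-log (1-r) = σ log p`; and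
`lw ≤ log (1 + ww/p)`.  For `p ≤ y`: `log p - log 2 = (log y/log 2) log 2 - log (2y/p)`.

`tt_bounds`: `p = x y`, `ε = σ log x`: `ww = y exp (-(1/σ) log (2 - e^(-ε)))` and
`ε - ε^2 ≤ log (2 - e^(-ε)) ≤ ε` (see `EQB_mid`, `EQB_log` in LK3/EQB for the upper bound).
-/

set_option autoImplicit false

namespace Pool.Agent.H96.LK4

open Finset Filter Topology Pool.Agent.H96.KMF Pool.Agent.H96.LK3

private lemma Dual_sg {y : ℝ} (hy : 1 < y) : 0 < sg y := by
  unfold sg
  exact div_pos (Real.log_pos (by norm_num)) (Real.log_pos hy)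

private lemma Dual_sgy {y : ℝ} (hy : 1 < y) : sg y * Real.log y = Real.log 2 := by
  have h := Real.log_pos hy
  unfold sg
  field_simp

private lemma Dual_pow {y : ℝ} (hy : 1 < y) {p : ℕ} (hp : 1 ≤ p) :
    (p : ℝ) ^ (-sg y) = Real.exp (-(sg y * Real.log p)) := by
  have hpr : (0 : ℝ) < p := by exact_mod_cast hp
  rw [Real.rpow_def_of_pos hpr]
  congr 1
  ring

private lemma Dual_half {y : ℝ} (hy : 1 < y) : (1 : ℝ) / 2 = Real.exp (-(sg y * Real.log y)) := by
  rw [Dual_sgy hy, Real.exp_neg, Real.exp_log (by norm_num)]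
  norm_num

theorem rr_le {y : ℝ} (hy : 1 < y) {p : ℕ} (hp : 1 ≤ p) (h : (p : ℝ) ≤ y) : rr y p = 1 / 2 := by
  have hpr : (0 : ℝ) < p := by exact_mod_cast hp
  unfold rr
  apply max_eq_left
  have h1 : (1 : ℝ) / 2 ≤ (p : ℝ) ^ (-sg y) := by
    rw [Dual_pow hy hp, Dual_half hy]
    apply Real.exp_le_exp.2
    have h2 := Real.log_le_log hpr h
    have h3 := mul_le_mul_of_nonneg_left h2 (Dual_sg hy).le
    linarith
  linarith

theorem rr_gt {y : ℝ} (hy : 1 < y) {p : ℕ} (h : y < (p : ℝ)) : rr y p = 1 - (p : ℝ) ^ (-sg y) := by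
  have hp : 1 ≤ p := by
    have : (1 : ℝ) < p := by linarith
    exact_mod_cast this.le
  unfold rr
  apply max_eq_right
  have h1 : (p : ℝ) ^ (-sg y) ≤ 1 / 2 := by
    rw [Dual_pow hy hp, Dual_half hy]
    apply Real.exp_le_exp.2
    have h2 := Real.log_le_log (by linarith : 0 < y) h.le
    have h3 := mul_le_mul_of_nonneg_left h2 (Dual_sg hy).le
    linarith
  linarith

theorem rr_bounds {y : ℝ} (hy : 1 < y) {p : ℕ} (hp : 1 ≤ p) : 1 / 2 ≤ rr y p ∧ rr y p < 1 := by
  unfold rr
  refine ⟨le_max_left _ _, max_lt (by norm_num) ?_⟩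
  have hpr : (0 : ℝ) < p := by exact_mod_cast hp
  have := Real.rpow_pos_of_pos hpr (-sg y)
  linarith

/-- for `p ≤ y^(5/4)`: `1 - rr ≥ 2^(-5/4)`. -/
theorem rr_log {y : ℝ} (hy : 1 < y) {p : ℕ} (hp : 1 ≤ p) (h : (p : ℝ) ≤ y ^ (5 / 4 : ℝ)) :
    -Real.log (1 - rr y p) ≤ 1 := by
  have hl2 := Real.log_two_lt_d9
  by_cases hpy : (p : ℝ) ≤ y
  · rw [rr_le hy hp hpy]
    have h1 : (1 : ℝ) - 1 / 2 = 2⁻¹ := by norm_num
    rw [h1, Real.log_inv]
    linarith
  · push Not at hpy
    have hpr : (0 : ℝ) < p := by linarith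
    rw [rr_gt hy hpy, sub_sub_cancel, Real.log_rpow hpr]
    have h1 := Real.log_le_log hpr h
    rw [Real.log_rpow (by linarith)] at h1
    have h2 := mul_le_mul_of_nonneg_left h1 (Dual_sg hy).le
    have h3 := Dual_sgy hy
    nlinarith

theorem tt_le {y : ℝ} (hy : 1 < y) {p : ℕ} (hp : 1 ≤ p) (h : (p : ℝ) ≤ y) : tt y p = 1 := by
  unfold tt
  rw [rr_le hy hp h]
  norm_num

theorem tt_gt {y : ℝ} (hy : 1 < y) {p : ℕ} (h : y < (p : ℝ)) : tt y p = ww (sg y) p / p := by
  have hpr : (0 : ℝ) < p := by linarith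
  have hσ := Dual_sg hy
  have hp : 1 ≤ p := by
    have : (1 : ℝ) < p := by linarith
    exact_mod_cast this.le
  have hr := rr_bounds hy hp
  rw [rr_gt hy h] at hr
  have hb : 0 ≤ 1 - (p : ℝ) ^ (-sg y) := by linarith [hr.1]
  have h1 : (1 - (p : ℝ) ^ (-sg y)) ^ (-(1 / sg y)) =
      ((1 - (p : ℝ) ^ (-sg y)) ^ (1 / sg y))⁻¹ := Real.rpow_neg hb _
  have h2 : ((p : ℝ) ^ (-sg y)) ^ (1 / sg y) = (p : ℝ)⁻¹ := by
    rw [← Real.rpow_mul hpr.le, neg_mul, mul_one_div_cancel hσ.ne', Real.rpow_neg_one]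
  unfold tt ww
  rw [rr_gt hy h, sub_sub_cancel, Real.div_rpow (by positivity) hb, h1, h2]
  ring

private lemma Dual_tt_pos {y : ℝ} (hy : 1 < y) {p : ℕ} (hp : 1 ≤ p) :
    0 < tt y p ∧ tt y p ≤ 1 := by
  have hr := rr_bounds hy hp
  have h1 : 0 < (1 - rr y p) / rr y p := div_pos (by linarith) (by linarith)
  refine ⟨Real.rpow_pos_of_pos h1 _, ?_⟩
  apply Real.rpow_le_one h1.le
  · rw [div_le_one (by linarith)]
    linarith
  · have := Dual_sg hy
    positivity

theorem ff_le {y : ℝ} (hy : 1 < y) {p : ℕ} (hp : 1 ≤ p) (h : (p : ℝ) ≤ y) : ff y p = 1 := by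
  unfold ff
  rw [tt_le hy hp h, rr_le hy hp h]
  norm_num

theorem ff_bounds {y : ℝ} (hy : 1 < y) {p : ℕ} (hp : 1 ≤ p) : 0 < ff y p ∧ ff y p ≤ 1 := by
  have hr := rr_bounds hy hp
  have ht := Dual_tt_pos hy hp
  have h1 : 0 < (1 + tt y p) * rr y p := mul_pos (by linarith) (by linarith)
  unfold ff
  refine ⟨div_pos ht.1 h1, ?_⟩
  rw [div_le_one h1]
  nlinarith

theorem dual {y : ℝ} (hy : 1 < y) {p : ℕ} (hp : 1 < p) :
    ff y p * Real.log p - Real.binEntropy (ff y p * rr y p) ≤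
      Real.log y / Real.log 2 * (ff y p * Real.binEntropy (rr y p)) - lw y p := by
  have hp1 : 1 ≤ p := hp.le
  have hpr : (0 : ℝ) < p := by exact_mod_cast hp1
  have hy0 : 0 < y := by linarith
  have hl2 : 0 < Real.log 2 := Real.log_pos (by norm_num)
  have hly : 0 < Real.log y := Real.log_pos hy
  by_cases hpy : (p : ℝ) ≤ y
  · rw [ff_le hy hp1 hpy, rr_le hy hp1 hpy]
    have h1 : Real.binEntropy (1 / 2) = Real.log 2 := by
      rw [one_div]
      exact Real.binEntropy_two_inv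
    unfold lw
    rw [if_pos hpy, one_mul, one_mul, one_mul, h1, div_mul_cancel₀ _ hl2.ne',
      Real.log_div (by positivity) hpr.ne', Real.log_mul (by norm_num) hy0.ne']
    linarith
  · push Not at hpy
    have hr := rr_bounds hy hp1
    have ht := Dual_tt_pos hy hp1
    have hσ := Dual_sg hy
    have hw := ww_one_le hσ hp
    have h1 : lw y p ≤ Real.log (1 + tt y p) := by
      unfold lw
      rw [if_neg (not_le.2 hpy), tt_gt hy hpy]
      apply Real.log_le_log
      · have : 0 ≤ (ww (sg y) p - 1) / p := div_nonneg (by linarith) hpr.le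
        linarith
      · have : (ww (sg y) p - 1) / p ≤ ww (sg y) p / p :=
          div_le_div_of_nonneg_right (by linarith) hpr.le
        linarith
    set r := rr y p with hrd
    set t := tt y p with htd
    have hr0 : 0 < r := by linarith
    have h1r : 0 < 1 - r := by linarith
    have hu : ff y p * r = t / (1 + t) := by
      unfold ff
      rw [← hrd, ← htd]
      have : 1 + t ≠ 0 := by linarith
      field_simp
    have hu' : 1 - t / (1 + t) = 1 / (1 + t) := by
      have : 1 + t ≠ 0 := by linarith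
      field_simp
      ring
    have hlt : Real.log t = 1 / sg y * (Real.log (1 - r) - Real.log r) := by
      rw [htd]
      unfold tt
      rw [← hrd, Real.log_rpow (div_pos h1r hr0), Real.log_div h1r.ne' hr0.ne']
    have hlp : Real.log p = 1 / sg y * (-Real.log (1 - r)) := by
      have h2 : 1 - r = (p : ℝ) ^ (-sg y) := by
        rw [hrd, rr_gt hy hpy]
        ring
      rw [h2, Real.log_rpow hpr]
      field_simp
    have hh : Real.binEntropy (t / (1 + t)) = Real.log (1 + t) - t / (1 + t) * Real.log t := by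
      have h3 : 0 < 1 + t := by linarith
      unfold Real.binEntropy
      rw [hu', Real.log_inv, Real.log_inv, Real.log_div ht.1.ne' h3.ne', one_div,
        Real.log_inv]
      field_simp
      ring
    have hhr : Real.binEntropy r = -(r * Real.log r) - (1 - r) * Real.log (1 - r) := by
      unfold Real.binEntropy
      rw [Real.log_inv, Real.log_inv]
      ring
    have hσy : Real.log y / Real.log 2 = 1 / sg y := by
      unfold sg
      rw [one_div_div]
    rw [hu, hh, hhr, hσy]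
    have h4 : ff y p * Real.log p - (Real.log (1 + t) - t / (1 + t) * Real.log t) =
        1 / sg y * (ff y p * (-(r * Real.log r) - (1 - r) * Real.log (1 - r))) -
          Real.log (1 + t) := by
      rw [← hu, hlt, hlp]
      ring
    rw [h4]
    linarith

private lemma Dual_log {a : ℝ} (ha : 0 ≤ a) : a - a ^ 2 ≤ Real.log (2 - Real.exp (-a)) := by
  set s := 1 - Real.exp (-a) with hs
  have h1 : Real.exp (-a) ≤ 1 - a + a ^ 2 / 2 := by
    have e1 := Real.quadratic_le_exp_of_nonneg ha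
    have e2 : Real.exp (-a) * Real.exp a = 1 := by rw [← Real.exp_add]; simp
    have e3 : 0 < Real.exp (-a) := Real.exp_pos _
    have e4 : (1 + a + a ^ 2 / 2) * Real.exp (-a) ≤ 1 := by
      have := mul_le_mul_of_nonneg_left e1 e3.le
      linarith
    have e5 : 1 ≤ (1 + a + a ^ 2 / 2) * (1 - a + a ^ 2 / 2) := by
      have : (1 + a + a ^ 2 / 2) * (1 - a + a ^ 2 / 2) = 1 + a ^ 4 / 4 := by ring
      rw [this]
      have : 0 ≤ a ^ 4 := by positivity
      linarith
    have e6 : 0 < 1 + a + a ^ 2 / 2 := by positivity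
    exact le_of_mul_le_mul_left (e4.trans e5) e6
  have hs0 : 0 ≤ s := by
    have := Real.exp_le_one_iff.2 (by linarith : -a ≤ 0)
    linarith
  have hsa : s ≤ a := by
    have := Real.add_one_le_exp (-a)
    linarith
  have h2 := Real.le_log_one_add_of_nonneg hs0
  have h3 : s - s ^ 2 / 2 ≤ 2 * s / (s + 2) := by
    rw [le_div_iff₀ (by linarith)]
    nlinarith [pow_nonneg hs0 3]
  have h4 : 1 + s = 2 - Real.exp (-a) := by rw [hs]; ring
  rw [h4] at h2
  nlinarith

private lemma Dual_log' {a : ℝ} (ha : 0 ≤ a) : Real.log (2 - Real.exp (-a)) ≤ a := by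
  have h1 : Real.exp (-a) ≤ 1 := Real.exp_le_one_iff.2 (by linarith)
  rw [Real.log_le_iff_le_exp (by linarith)]
  have h2 := Real.one_sub_inv_le_log_of_pos (Real.exp_pos a)
  have h3 : Real.exp (-a) * Real.exp a = 1 := by rw [← Real.exp_add]; simp
  have h4 := Real.exp_pos (-a)
  nlinarith [sq_nonneg (Real.exp a - 1)]

theorem tt_bounds {y : ℝ} (hy : 1 < y) {p : ℕ} (h : y < (p : ℝ)) :
    (y / p) ^ 2 ≤ tt y p ∧ tt y p ≤ (y / p) ^ 2 * Real.exp (sg y * Real.log (p / y) ^ 2) := by
  have hpr : (0 : ℝ) < p := by linarith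
  have hy0 : 0 < y := by linarith
  have hσ := Dual_sg hy
  have hσy := Dual_sgy hy
  have hp : 1 ≤ p := by
    have : (1 : ℝ) < p := by linarith
    exact_mod_cast this.le
  rw [tt_gt hy h]
  set σ := sg y with hσd
  set b := Real.log (p / y) with hb
  have hb0 : 0 ≤ b := Real.log_nonneg (by rw [le_div_iff₀ hy0]; linarith)
  have hlp : Real.log p = Real.log y + b := by
    rw [hb, Real.log_div hpr.ne' hy0.ne']
    ring
  have hpσ : (p : ℝ) ^ (-σ) = Real.exp (-(σ * b)) / 2 := by
    rw [Real.rpow_def_of_pos hpr, hlp]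
    have e : (Real.log y + b) * -σ = -Real.log 2 + -(σ * b) := by
      linear_combination -hσy
    rw [e, Real.exp_add, Real.exp_neg (Real.log 2), Real.exp_log (by norm_num)]
    ring
  have hσb : 0 ≤ σ * b := by positivity
  have he1 : Real.exp (-(σ * b)) ≤ 1 := Real.exp_le_one_iff.2 (by linarith)
  have hpos : 0 < 2 - Real.exp (-(σ * b)) := by linarith
  have hw : ww σ p = y * Real.exp (-(1 / σ * Real.log (2 - Real.exp (-(σ * b))))) := by
    unfold ww
    rw [hpσ]
    have e1 : 1 - Real.exp (-(σ * b)) / 2 = (2 - Real.exp (-(σ * b))) / 2 := by ring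
    rw [e1, Real.rpow_def_of_pos (by positivity), Real.log_div hpos.ne' (by norm_num)]
    have e2 : (Real.log (2 - Real.exp (-(σ * b))) - Real.log 2) * -(1 / σ) =
        Real.log y + -(1 / σ * Real.log (2 - Real.exp (-(σ * b)))) := by
      have : Real.log 2 * (1 / σ) = Real.log y := by
        rw [← hσy]
        field_simp
      linear_combination this
    rw [e2, Real.exp_add, Real.exp_log hy0]
  have hexp : Real.exp (-b) = y / p := by
    rw [Real.exp_neg, hb, Real.exp_log (by positivity), inv_div]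
  constructor
  · have hle : -b ≤ -(1 / σ * Real.log (2 - Real.exp (-(σ * b)))) := by
      have e1 := Dual_log' hσb
      have e2 := mul_le_mul_of_nonneg_left e1 (by positivity : 0 ≤ 1 / σ)
      have e3 : 1 / σ * (σ * b) = b := by field_simp
      linarith
    rw [hw, le_div_iff₀ hpr]
    calc (y / p) ^ 2 * p = y * Real.exp (-b) := by
          rw [hexp]
          field_simp
      _ ≤ y * Real.exp (-(1 / σ * Real.log (2 - Real.exp (-(σ * b))))) :=
          mul_le_mul_of_nonneg_left (Real.exp_le_exp.2 hle) hy0.le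
  · have hle : -(1 / σ * Real.log (2 - Real.exp (-(σ * b)))) ≤ -b + σ * b ^ 2 := by
      have e1 := Dual_log hσb
      have e2 := mul_le_mul_of_nonneg_left e1 (by positivity : 0 ≤ 1 / σ)
      have e3 : 1 / σ * (σ * b - (σ * b) ^ 2) = b - σ * b ^ 2 := by field_simp
      rw [e3] at e2
      linarith
    rw [hw, div_le_iff₀ hpr]
    calc y * Real.exp (-(1 / σ * Real.log (2 - Real.exp (-(σ * b))))) ≤
          y * Real.exp (-b + σ * b ^ 2) :=
          mul_le_mul_of_nonneg_left (Real.exp_le_exp.2 hle) hy0.le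
      _ = (y / p) ^ 2 * Real.exp (σ * b ^ 2) * p := by
          rw [Real.exp_add, hexp]
          field_simp

end Pool.Agent.H96.LK4
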