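import Pool.Agent.H96.LK4.TailX

/-!
# LK4 EQ2: the Euler product of the construction is at most `exp (LL y + y^(17/20))`

As `EQB_total` in LK3/EQB, but the factors of the primes `p > y` are exactly
`exp (lw y p)`: primes in `QY y`: `exp (la + y^(-1/5))`, `la = lw`; primes `p ≤ y` not in `QY y` (at
most `y^(4/5)`): `exp (10 (log y)^2 + ..)`; primes `p > y`: `exp (lw y p)`; all `lw ≥ 0`, so finite
sums of them are at most `LL y` (`sum_le_LL`).
-/

set_option autoImplicit false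

namespace Pool.Agent.H96.LK4

open Finset Filter Topology Pool.Agent.H96.KMF Pool.Agent.H96.LK3

private lemma EQ2_two {y : ℝ} (hy : 1 < y) {p : ℕ} (hp : 0 < p) :
    (2 * (p : ℝ) ^ (-(Real.log 2 / Real.log y))) ^ (1 / (Real.log 2 / Real.log y)) = y / p := by
  have hΛ : 0 < Real.log y := Real.log_pos hy
  have hl2 : 0 < Real.log 2 := Real.log_pos (by norm_num)
  have hpr : (0 : ℝ) < p := by exact_mod_cast hp
  have hσ : Real.log 2 / Real.log y ≠ 0 := by positivity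
  rw [Real.mul_rpow (by norm_num) (by positivity), two_rpow_inv hy, ← Real.rpow_mul hpr.le,
    neg_mul, mul_one_div_cancel hσ, Real.rpow_neg_one]
  rfl

private lemma EQ2_mem {y : ℝ} {p : ℕ} (hy : 0 ≤ y) :
    p ∈ PP y ↔ (p : ℝ) ≤ y ∧ p.Prime := by
  rw [PP, Nat.mem_primesLE, Nat.le_floor_iff hy]

/-- the factors with `p ∈ Q`. -/
private lemma EQ2_Q {y : ℝ} (hy : 1 < y) {p : ℕ} (hp : p ∈ QY y) :
    (y / p) * (2 + ww (Real.log 2 / Real.log y) p / (p : ℝ) ^ 2) ≤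
      Real.exp (lw y p + y ^ (-(1 / 5) : ℝ)) := by
  have hy0 : 0 < y := by linarith
  rw [QY, Finset.mem_filter, EQ2_mem hy0.le] at hp
  obtain ⟨⟨hpy, hpp⟩, h5⟩ := hp
  have hpr : (0 : ℝ) < p := by exact_mod_cast hpp.pos
  have hp1 : 1 < p := hpp.one_lt
  have hsq : y ≤ (p : ℝ) ^ 2 := by
    by_contra h
    push Not at h
    have e1 : ((p : ℝ) ^ 5) ^ 2 < y ^ 5 := by
      have : ((p : ℝ) ^ 5) ^ 2 = ((p : ℝ) ^ 2) ^ 5 := by ring
      rw [this]
      exact pow_lt_pow_left₀ h (by positivity) (by norm_num)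
    have e2 : (y ^ 4) ^ 2 < ((p : ℝ) ^ 5) ^ 2 := pow_lt_pow_left₀ h5 (by positivity) (by norm_num)
    have e3 : y ^ 5 ≤ (y ^ 4) ^ 2 := by
      rw [← pow_mul]
      exact pow_le_pow_right₀ hy.le (by norm_num)
    linarith
  have hw := ww_region2 hy hp1 hsq hpy
  have hsmall : y ^ 3 / (p : ℝ) ^ 4 ≤ y ^ (-(1 / 5) : ℝ) := by
    have e1 : (y ^ 3 / (p : ℝ) ^ 4) ^ 5 ≤ (y ^ (-(1 / 5) : ℝ)) ^ 5 := by
      have e2 : (y ^ (-(1 / 5) : ℝ)) ^ 5 = 1 / y := by
        rw [← Real.rpow_natCast, ← Real.rpow_mul hy0.le]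
        norm_num
        exact Real.rpow_neg_one y
      rw [e2, div_pow, div_le_div_iff₀ (by positivity) hy0, one_mul]
      have e3 : (y ^ 4) ^ 4 ≤ ((p : ℝ) ^ 5) ^ 4 := pow_le_pow_left₀ (by positivity) h5.le 4
      calc (y ^ 3) ^ 5 * y = (y ^ 4) ^ 4 := by ring
        _ ≤ ((p : ℝ) ^ 5) ^ 4 := e3
        _ = ((p : ℝ) ^ 4) ^ 5 := by ring
    exact le_of_pow_le_pow_left₀ (by norm_num) (by positivity) e1
  have hla : Real.exp (lw y p) = 2 * y / p := by
    rw [lw, if_pos hpy, Real.exp_log (by positivity)]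
  rw [Real.exp_add, hla]
  have h1 : ww (Real.log 2 / Real.log y) p / (p : ℝ) ^ 2 ≤ y ^ (-(1 / 5) : ℝ) := by
    refine le_trans ?_ hsmall
    rw [div_le_div_iff₀ (by positivity) (by positivity)]
    rw [le_div_iff₀ (by positivity)] at hw
    have := mul_le_mul_of_nonneg_right hw (by positivity : 0 ≤ (p : ℝ) ^ 2)
    calc ww (Real.log 2 / Real.log y) p * (p : ℝ) ^ 4 =
          ww (Real.log 2 / Real.log y) p * (p : ℝ) ^ 2 * (p : ℝ) ^ 2 := by ring
      _ ≤ _ := this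
  have h2 := Real.add_one_le_exp (y ^ (-(1 / 5) : ℝ))
  have h3 : 0 ≤ y ^ (-(1 / 5) : ℝ) := by positivity
  calc (y / p) * (2 + ww (Real.log 2 / Real.log y) p / (p : ℝ) ^ 2) ≤
        (y / p) * (2 * Real.exp (y ^ (-(1 / 5) : ℝ))) :=
        mul_le_mul_of_nonneg_left (by linarith) (by positivity)
    _ = 2 * y / p * Real.exp (y ^ (-(1 / 5) : ℝ)) := by ring

/-- bound for the logarithms of the other factors. -/
private noncomputable def EQ2_cc (y : ℝ) (p : ℕ) : ℝ :=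
  (if (p : ℝ) ≤ y then 7 * Real.log y ^ 2 + Real.log 2 + 3 * Real.log y else 0) +
  (if y < (p : ℝ) then lw y p else 0) +
  2 * Real.log y * Real.sqrt y * (p : ℝ) ^ (-1 - (Real.log 2 / Real.log y))

private lemma EQ2_other {y : ℝ} (hy : Real.exp 1 ≤ y) {p : ℕ} (hp : 1 < p) :
    1 + (ww (Real.log 2 / Real.log y) p - 1) / p ≤ Real.exp (EQ2_cc y p) := by
  have hy1 : 1 < y := lt_of_lt_of_le (by
    have := Real.add_one_lt_exp (one_ne_zero); linarith) hy
  have hΛ : 0 < Real.log y := Real.log_pos hy1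
  have hl2 : 0 < Real.log 2 := Real.log_pos (by norm_num)
  have hy0 : 0 < y := by linarith
  have hσ : 0 < Real.log 2 / Real.log y := by positivity
  have hpr1 : (1 : ℝ) < p := by exact_mod_cast hp
  have hpr : (0 : ℝ) < p := by linarith
  have hlast : 0 ≤ 2 * Real.log y * Real.sqrt y * (p : ℝ) ^ (-1 - (Real.log 2 / Real.log y)) := by
    positivity
  by_cases c1 : (p : ℝ) ≤ y
  · refine (factor_le hy hp).trans (Real.exp_le_exp.2 ?_)
    unfold bb EQ2_cc
    have i1 : ¬ (y < (p : ℝ) ∧ (p : ℝ) ≤ y ^ 2) := fun h => by linarith [h.1]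
    have i2 : ¬ (y < (p : ℝ)) := fun h => by linarith
    rw [if_pos c1, if_neg i1, if_pos c1, if_neg i2]
    have e1 : (if (p : ℝ) ^ 2 < y then 7 * Real.log y ^ 2 else 0) ≤ 7 * Real.log y ^ 2 := by
      split_ifs
      · exact le_rfl
      · positivity
    have e2 : Real.log (y / p) ≤ Real.log y :=
      Real.log_le_log (by positivity) (div_le_self hy0.le hpr1.le)
    linarith
  · have c2 : y < (p : ℝ) := not_le.1 c1
    have hw := ww_one_le hσ hp
    have h0 : 0 ≤ (ww (Real.log 2 / Real.log y) p - 1) / p :=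
      div_nonneg (by linarith) hpr.le
    have hlw : Real.exp (lw y p) = 1 + (ww (Real.log 2 / Real.log y) p - 1) / p := by
      rw [lw, if_neg c1, sg, Real.exp_log (by linarith)]
    rw [← hlw]
    refine Real.exp_le_exp.2 ?_
    unfold EQ2_cc
    rw [if_neg c1, if_pos c2]
    linarith

private lemma EQ2_card {y : ℝ} (hy : 1 < y) (z : ℕ) :
    ((((Nat.primesBelow (z + 1)) \ QY y).filter (fun p : ℕ => (p : ℝ) ≤ y)).card : ℝ) ≤
      y ^ (4 / 5 : ℝ) := by
  have hy0 : 0 < y := by linarith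
  have hsub : ((Nat.primesBelow (z + 1)) \ QY y).filter (fun p : ℕ => (p : ℝ) ≤ y) ⊆
      Finset.Icc 1 ⌊y ^ (4 / 5 : ℝ)⌋₊ := by
    intro p hp
    rw [Finset.mem_filter, Finset.mem_sdiff, QY, Finset.mem_filter, EQ2_mem hy0.le] at hp
    have hpp := Nat.prime_of_mem_primesBelow hp.1.1
    rw [Finset.mem_Icc]
    refine ⟨hpp.one_lt.le, Nat.le_floor ?_⟩
    have h5 : (p : ℝ) ^ 5 ≤ y ^ 4 := by
      by_contra h
      push Not at h
      exact hp.1.2 ⟨⟨hp.2, hpp⟩, h⟩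
    have h6 : (y ^ (4 / 5 : ℝ)) ^ 5 = y ^ 4 := by
      rw [← Real.rpow_natCast, ← Real.rpow_mul hy0.le]
      norm_num
    exact le_of_pow_le_pow_left₀ (by norm_num : (5 : ℕ) ≠ 0) (by positivity) (by rw [h6]; exact h5)
  calc _ ≤ ((Finset.Icc 1 ⌊y ^ (4 / 5 : ℝ)⌋₊).card : ℝ) := by
        exact_mod_cast Finset.card_le_card hsub
    _ = (⌊y ^ (4 / 5 : ℝ)⌋₊ : ℝ) := by simp
    _ ≤ y ^ (4 / 5 : ℝ) := Nat.floor_le (by positivity)

private lemma EQ2_cardQ {y : ℝ} (hy : 1 < y) : ((QY y).card : ℝ) ≤ y := by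
  have hy0 : 0 < y := by linarith
  have hsub : QY y ⊆ Finset.Icc 1 ⌊y⌋₊ := by
    intro p hp
    rw [QY, Finset.mem_filter, EQ2_mem hy0.le] at hp
    rw [Finset.mem_Icc]
    exact ⟨hp.1.2.one_lt.le, Nat.le_floor hp.1.1⟩
  calc ((QY y).card : ℝ) ≤ ((Finset.Icc 1 ⌊y⌋₊).card : ℝ) := by
        exact_mod_cast Finset.card_le_card hsub
    _ = (⌊y⌋₊ : ℝ) := by simp
    _ ≤ y := Nat.floor_le hy0.le

private lemma EQ2_sum {y : ℝ} (hy : Real.exp 1 ≤ y) (z : ℕ) :
    ∑ p ∈ QY y, lw y p + ∑ p ∈ Nat.primesBelow (z + 1) \ QY y,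
      (if y < (p : ℝ) then lw y p else 0) ≤ LL y := by
  have hy0 : 0 < y := (Real.exp_pos 1).trans_le hy
  rw [← Finset.sum_filter, ← Finset.sum_union]
  · apply sum_le_LL hy
    intro p hp
    rw [Finset.mem_union, Finset.mem_filter, Finset.mem_sdiff, QY, Finset.mem_filter,
      EQ2_mem hy0.le] at hp
    rcases hp with h | h
    · exact h.1.2
    · exact Nat.prime_of_mem_primesBelow h.1.1
  · rw [Finset.disjoint_left]
    intro p h1 h2
    rw [Finset.mem_filter, Finset.mem_sdiff] at h2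
    exact h2.1.2 h1

private lemma EQ2_total {y : ℝ} (hy : Real.exp 1 ≤ y) (z : ℕ) :
    EQ (Real.log 2 / Real.log y) (QY y) z ≤
      Real.exp (LL y + (y ^ (4 / 5 : ℝ) +
        y ^ (4 / 5 : ℝ) * (7 * Real.log y ^ 2 + Real.log 2 + 3 * Real.log y) +
        3 * Real.log y ^ 2 * Real.sqrt y)) := by
  have hy1 : 1 < y := lt_of_lt_of_le (by
    have := Real.add_one_lt_exp (one_ne_zero); linarith) hy
  have hΛ : 0 < Real.log y := Real.log_pos hy1
  have hl2 : 0 < Real.log 2 := Real.log_pos (by norm_num)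
  have hy0 : 0 < y := by linarith
  have hσ : 0 < Real.log 2 / Real.log y := by positivity
  set σ := Real.log 2 / Real.log y with hσd
  set N := Nat.primesBelow (z + 1) with hN
  have hQp : ∀ p ∈ QY y, (p : ℝ) ≤ y ∧ p.Prime := by
    intro p hp
    rw [QY, Finset.mem_filter, EQ2_mem hy0.le] at hp
    exact hp.1
  have hww0 : ∀ p : ℕ, 0 < p → 0 ≤ ww σ p := fun p hp => by
    unfold ww
    apply Real.rpow_nonneg
    have hp1 : (1 : ℝ) ≤ p := by exact_mod_cast hp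
    have := Real.rpow_le_one_of_one_le_of_nonpos hp1 (by linarith : -σ ≤ 0)
    linarith
  have hfac : ∀ p ∈ QY y, (1 : ℝ) ≤ 2 + ww σ p / (p : ℝ) ^ 2 := fun p hp => by
    have h1 := hww0 p (hQp p hp).2.pos
    have : 0 ≤ ww σ p / (p : ℝ) ^ 2 := by positivity
    linarith
  have hsplit : ∏ p ∈ N, (if p ∈ QY y then 2 + ww σ p / (p : ℝ) ^ 2 else 1 + (ww σ p - 1) / p) =
      (∏ p ∈ N.filter (fun p => p ∈ QY y), (2 + ww σ p / (p : ℝ) ^ 2)) *
        ∏ p ∈ N.filter (fun p => ¬ p ∈ QY y), (1 + (ww σ p - 1) / p) := by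
    rw [Finset.prod_ite]
  have hA : ∏ p ∈ N.filter (fun p => p ∈ QY y), (2 + ww σ p / (p : ℝ) ^ 2) ≤
      ∏ p ∈ QY y, (2 + ww σ p / (p : ℝ) ^ 2) := by
    apply Finset.prod_le_prod_of_subset_of_one_le
    · intro p hp
      exact (Finset.mem_filter.1 hp).2
    · intro p hp
      linarith [hfac p (Finset.mem_filter.1 hp).2]
    · intro p hp _
      exact hfac p hp
  have hB : ∏ p ∈ N.filter (fun p => ¬ p ∈ QY y), (1 + (ww σ p - 1) / p) ≤
      Real.exp (∑ p ∈ N \ QY y, EQ2_cc y p) := by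
    rw [Real.exp_sum, Finset.filter_notMem_eq_sdiff]
    apply Finset.prod_le_prod
    · intro p hp
      rw [Finset.mem_sdiff] at hp
      have := ww_one_le hσ (Nat.prime_of_mem_primesBelow hp.1).one_lt
      have h2 : 0 ≤ (ww σ p - 1) / p := div_nonneg (by linarith) (by positivity)
      linarith
    · intro p hp
      rw [Finset.mem_sdiff] at hp
      exact EQ2_other hy (Nat.prime_of_mem_primesBelow hp.1).one_lt
  have hB0 : 0 ≤ ∏ p ∈ N.filter (fun p => ¬ p ∈ QY y), (1 + (ww σ p - 1) / p) := by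
    apply Finset.prod_nonneg
    intro p hp
    rw [Finset.mem_filter] at hp
    have := ww_one_le hσ (Nat.prime_of_mem_primesBelow hp.1).one_lt
    have h2 : 0 ≤ (ww σ p - 1) / p := div_nonneg (by linarith) (by positivity)
    linarith
  have hC : (∏ p ∈ QY y, (2 * (p : ℝ) ^ (-σ)) ^ (1 / σ)) *
      ∏ p ∈ QY y, (2 + ww σ p / (p : ℝ) ^ 2) ≤
      Real.exp (∑ p ∈ QY y, (lw y p + y ^ (-(1 / 5) : ℝ))) := by
    rw [← Finset.prod_mul_distrib, Real.exp_sum]
    apply Finset.prod_le_prod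
    · intro p hp
      have := hfac p hp
      positivity
    · intro p hp
      rw [hσd, EQ2_two hy1 (hQp p hp).2.pos]
      exact EQ2_Q hy1 hp
  have hP0 : 0 ≤ ∏ p ∈ QY y, (2 * (p : ℝ) ^ (-σ)) ^ (1 / σ) :=
    Finset.prod_nonneg fun p _ => by positivity
  have hmain : EQ σ (QY y) z ≤ Real.exp (∑ p ∈ QY y, (lw y p + y ^ (-(1 / 5) : ℝ)) +
      ∑ p ∈ N \ QY y, EQ2_cc y p) := by
    rw [EQ, hsplit, ← mul_assoc, Real.exp_add]
    refine mul_le_mul ?_ hB hB0 (Real.exp_pos _).le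
    exact (mul_le_mul_of_nonneg_left hA hP0).trans hC
  refine hmain.trans (Real.exp_le_exp.2 ?_)
  -- the sums
  have s1 : ∑ p ∈ N \ QY y,
      (if (p : ℝ) ≤ y then 7 * Real.log y ^ 2 + Real.log 2 + 3 * Real.log y else 0) ≤
      y ^ (4 / 5 : ℝ) * (7 * Real.log y ^ 2 + Real.log 2 + 3 * Real.log y) := by
    rw [← Finset.sum_filter, Finset.sum_const, nsmul_eq_mul]
    exact mul_le_mul_of_nonneg_right (EQ2_card hy1 z) (by positivity)
  have s2 := EQ2_sum hy z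
  have s4 : ∑ p ∈ N \ QY y, 2 * Real.log y * Real.sqrt y * (p : ℝ) ^ (-1 - σ) ≤
      3 * Real.log y ^ 2 * Real.sqrt y := by
    refine le_trans ?_ (sum_d hy1 z)
    apply Finset.sum_le_sum_of_subset_of_nonneg Finset.sdiff_subset
    intro p _ _
    positivity
  have s5 : ∑ p ∈ QY y, (lw y p + y ^ (-(1 / 5) : ℝ)) ≤ ∑ p ∈ QY y, lw y p + y ^ (4 / 5 : ℝ) := by
    rw [Finset.sum_add_distrib, Finset.sum_const, nsmul_eq_mul]
    have e1 : y ^ (4 / 5 : ℝ) = y * y ^ (-(1 / 5) : ℝ) := by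
      nth_rewrite 2 [← Real.rpow_one y]
      rw [← Real.rpow_add hy0]
      norm_num
    rw [e1]
    have := mul_le_mul_of_nonneg_right (EQ2_cardQ hy1) (by positivity : 0 ≤ y ^ (-(1 / 5) : ℝ))
    linarith
  have s6 : ∑ p ∈ N \ QY y, EQ2_cc y p =
      ∑ p ∈ N \ QY y,
        (if (p : ℝ) ≤ y then 7 * Real.log y ^ 2 + Real.log 2 + 3 * Real.log y else 0) +
      ∑ p ∈ N \ QY y, (if y < (p : ℝ) then lw y p else 0) +
      ∑ p ∈ N \ QY y, 2 * Real.log y * Real.sqrt y * (p : ℝ) ^ (-1 - σ) := by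
    rw [← Finset.sum_add_distrib, ← Finset.sum_add_distrib]
    rfl
  rw [s6]
  linarith

theorem EQ2 : ∀ᶠ y : ℝ in atTop, ∀ z : ℕ,
    EQ (Real.log 2 / Real.log y) (QY y) z ≤ Real.exp (LL y + y ^ (17 / 20 : ℝ)) := by
  have hlit := (isLittleO_log_rpow_rpow_atTop (2 : ℝ) (by norm_num : (0 : ℝ) < 1 / 20)).bound
    (by norm_num : (0 : ℝ) < 1 / 15)
  filter_upwards [hlit, eventually_ge_atTop (Real.exp 1)] with y h1 h3 z
  have hy1 : 1 < y := lt_of_lt_of_le (by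
    have := Real.add_one_lt_exp (one_ne_zero); linarith) h3
  have hΛ1 : 1 ≤ Real.log y := by
    rw [Real.le_log_iff_exp_le (by linarith)]; exact h3
  have hl2 : 0 < Real.log 2 := Real.log_pos (by norm_num)
  have hl2' : Real.log 2 < 0.6931471808 := Real.log_two_lt_d9
  have hy0 : 0 < y := by linarith
  refine (EQ2_total h3 z).trans (Real.exp_le_exp.2 ?_)
  set V := y ^ (4 / 5 : ℝ) with hV
  have hV0 : 0 < V := by positivity
  have hVs : Real.sqrt y ≤ V := by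
    rw [Real.sqrt_eq_rpow, hV]
    exact Real.rpow_le_rpow_of_exponent_le hy1.le (by norm_num)
  rw [Real.norm_eq_abs, Real.norm_eq_abs, abs_of_nonneg (by positivity),
    abs_of_nonneg (by positivity),
    show (2 : ℝ) = ((2 : ℕ) : ℝ) by norm_num, Real.rpow_natCast] at h1
  have a1 : V * y ^ (1 / 20 : ℝ) = y ^ (17 / 20 : ℝ) := by
    rw [hV, ← Real.rpow_add hy0]
    norm_num
  have a2 : V + V * (7 * Real.log y ^ 2 + Real.log 2 + 3 * Real.log y) +
      3 * Real.log y ^ 2 * Real.sqrt y ≤ 15 * Real.log y ^ 2 * V := by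
    have b1 : 1 + (7 * Real.log y ^ 2 + Real.log 2 + 3 * Real.log y) ≤
        12 * Real.log y ^ 2 := by nlinarith
    have b2 := mul_le_mul_of_nonneg_left b1 hV0.le
    have b3 := mul_le_mul_of_nonneg_left hVs (by positivity : 0 ≤ 3 * Real.log y ^ 2)
    linarith
  have a3 : 15 * Real.log y ^ 2 * V ≤ y ^ (17 / 20 : ℝ) := by
    calc 15 * Real.log y ^ 2 * V ≤ 15 * (1 / 15 * y ^ (1 / 20 : ℝ)) * V := by
          apply mul_le_mul_of_nonneg_right _ hV0.le
          linarith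
      _ = V * y ^ (1 / 20 : ℝ) := by ring
      _ = y ^ (17 / 20 : ℝ) := a1
  linarith

end Pool.Agent.H96.LK4
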