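import Pool.Agent.H96.LK4.SumF

/-!
# LK4 EntB: the bias of the random subset costs little entropy

`p ≤ y`: both terms are equal (`ff = 1`, `rr = 1/2`).  `y < p ≤ y^(5/4)`, `f = ff`, `r = rr`, `x = p/y`:
concavity of `h` (binary entropy): `h (f r) ≤ h (f/2) + f (r - 1/2) log ((1 - f/2)/(f/2))`
`≤ h (f/2) + f (r - 1/2) log (2/f)`, `r - 1/2 = (1 - x^(-σ))/2 ≤ σ log x / 2`,
`u log (2/u) ≤ 4 u^(8/9)` for `0 < u ≤ 1` (any similar inequality), `f ≤ 2 x^(-3/2)`, so the term is at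
most `C σ log x x^(-4/3) ≤ C' σ x^(-5/4)`.  The sum of `(y/p)^(5/4)` over the primes `p > y` is
`O (y/log y)` (dyadic blocks and `pi_le_five`, see `sum_c` of KMF/ESum), and `σ = log 2/log y → 0`.
-/

set_option autoImplicit false

namespace Pool.Agent.H96.LK4

open Finset Filter Topology Pool.Agent.H96.KMF Pool.Agent.H96.LK3

/-- concavity of the binary entropy. -/
private lemma EntB_gibbs {a b : ℝ} (ha : 0 < a) (hab : a ≤ b) (hb : b < 1) :
    Real.binEntropy b - Real.binEntropy a ≤ (b - a) * (-Real.log a) := by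
  have hb0 : 0 < b := by linarith
  have h1b : 0 < 1 - b := by linarith
  have h1a : 0 < 1 - a := by linarith
  have e1 : Real.log (a / b) ≤ a / b - 1 := Real.log_le_sub_one_of_pos (by positivity)
  have e2 : Real.log ((1 - a) / (1 - b)) ≤ (1 - a) / (1 - b) - 1 :=
    Real.log_le_sub_one_of_pos (by positivity)
  rw [Real.log_div ha.ne' hb0.ne'] at e1
  rw [Real.log_div h1a.ne' h1b.ne'] at e2
  have f1 := mul_le_mul_of_nonneg_left e1 hb0.le
  have f2 := mul_le_mul_of_nonneg_left e2 h1b.le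
  have g1 : b * (a / b - 1) = a - b := by field_simp
  have g2 : (1 - b) * ((1 - a) / (1 - b) - 1) = b - a := by
    field_simp
    ring
  rw [g1] at f1
  rw [g2] at f2
  have h3 : Real.log (1 - a) ≤ 0 := Real.log_nonpos h1a.le (by linarith)
  have h4 : (b - a) * Real.log (1 - a) ≤ 0 :=
    mul_nonpos_of_nonneg_of_nonpos (by linarith) h3
  unfold Real.binEntropy
  rw [Real.log_inv, Real.log_inv, Real.log_inv, Real.log_inv]
  nlinarith

private lemma EntB_ulog {u : ℝ} (hu : 0 < u) :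
    u * Real.log (2 / u) ≤ 18 * u ^ (8 / 9 : ℝ) := by
  have h1 := Real.log_le_rpow_div (x := 2 / u) (by positivity) (by norm_num : (0 : ℝ) < 1 / 9)
  have h2 : (2 / u) ^ (1 / 9 : ℝ) = 2 ^ (1 / 9 : ℝ) * u ^ (-(1 / 9) : ℝ) := by
    rw [Real.div_rpow (by norm_num) hu.le, Real.rpow_neg hu.le]
    rfl
  have h3 : (2 : ℝ) ^ (1 / 9 : ℝ) ≤ 2 := by
    calc (2 : ℝ) ^ (1 / 9 : ℝ) ≤ 2 ^ (1 : ℝ) :=
          Real.rpow_le_rpow_of_exponent_le (by norm_num) (by norm_num)
      _ = 2 := Real.rpow_one 2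
  have h4 : u * u ^ (-(1 / 9) : ℝ) = u ^ (8 / 9 : ℝ) := by
    nth_rewrite 1 [← Real.rpow_one u]
    rw [← Real.rpow_add hu]
    norm_num
  calc u * Real.log (2 / u) ≤ u * ((2 / u) ^ (1 / 9 : ℝ) / (1 / 9)) :=
        mul_le_mul_of_nonneg_left h1 hu.le
    _ = 9 * 2 ^ (1 / 9 : ℝ) * (u * u ^ (-(1 / 9) : ℝ)) := by
        rw [h2]
        ring
    _ = 9 * 2 ^ (1 / 9 : ℝ) * u ^ (8 / 9 : ℝ) := by rw [h4]
    _ ≤ 18 * u ^ (8 / 9 : ℝ) := by
        apply mul_le_mul_of_nonneg_right _ (by positivity)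
        linarith

private lemma EntB_term {y : ℝ} (hy : 1 < y) {p : ℕ} (h : y < (p : ℝ)) (h2 : (p : ℝ) ≤ y ^ 2) :
    Real.binEntropy (ff y p * rr y p) - Real.binEntropy (ff y p / 2) ≤
      216 * sg y * (y / p) ^ (5 / 4 : ℝ) := by
  have hp1 : (1 : ℝ) < p := by linarith
  have hp : 1 ≤ p := by exact_mod_cast hp1.le
  have hpr : (0 : ℝ) < p := by linarith
  have hy0 : 0 < y := by linarith
  have hly : 0 < Real.log y := Real.log_pos hy
  have hσ : 0 < sg y := div_pos (Real.log_pos (by norm_num)) hly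
  obtain ⟨f0, f1⟩ := ff_bounds hy hp
  obtain ⟨r0, r1⟩ := rr_bounds hy hp
  have hf := ff_small hy h h2
  set f := ff y p with hfdef
  set r := rr y p with hrdef
  have hfr : f * r < 1 := by
    calc f * r ≤ 1 * r := mul_le_mul_of_nonneg_right f1 (by linarith)
      _ < 1 := by linarith
  have hx1 : 1 < (p : ℝ) / y := (one_lt_div hy0).2 h
  have hxpos : 0 < (p : ℝ) / y := by positivity
  -- the bias
  have hr : r - 1 / 2 ≤ 6 * sg y * ((p : ℝ) / y) ^ (1 / 12 : ℝ) := by
    have e1 : r = 1 - (p : ℝ) ^ (-sg y) := rr_gt hy h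
    have e2 : sg y * Real.log y = Real.log 2 := by
      unfold sg
      field_simp
    have e3 : (p : ℝ) ^ (-sg y) = 1 / 2 * Real.exp (-(sg y * Real.log ((p : ℝ) / y))) := by
      have e4 : (1 : ℝ) / 2 = Real.exp (-(sg y * Real.log y)) := by
        rw [e2, Real.exp_neg, Real.exp_log (by norm_num)]
        norm_num
      rw [e4, ← Real.exp_add, Real.rpow_def_of_pos hpr, Real.log_div hpr.ne' hy0.ne']
      congr 1
      ring
    have e5 := Real.add_one_le_exp (-(sg y * Real.log ((p : ℝ) / y)))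
    have e6 := Real.log_le_rpow_div (x := (p : ℝ) / y) hxpos.le
      (by norm_num : (0 : ℝ) < 1 / 12)
    have e7 : sg y * Real.log ((p : ℝ) / y) ≤
        sg y * (((p : ℝ) / y) ^ (1 / 12 : ℝ) / (1 / 12)) := mul_le_mul_of_nonneg_left e6 hσ.le
    rw [e1, e3]
    linarith
  have hlog : 0 ≤ Real.log (2 / f) := Real.log_nonneg (by
    rw [le_div_iff₀ f0]
    linarith)
  have hbd : f * Real.log (2 / f) ≤ 36 * (y / p) ^ (4 / 3 : ℝ) := by
    refine (EntB_ulog f0).trans ?_
    have hyp : 0 ≤ y / p := by positivity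
    have e1 : f ^ (8 / 9 : ℝ) ≤ (2 * (y / p) ^ (3 / 2 : ℝ)) ^ (8 / 9 : ℝ) :=
      Real.rpow_le_rpow f0.le hf (by norm_num)
    have e2 : (2 * (y / p) ^ (3 / 2 : ℝ)) ^ (8 / 9 : ℝ) =
        2 ^ (8 / 9 : ℝ) * (y / p) ^ (4 / 3 : ℝ) := by
      rw [Real.mul_rpow (by norm_num) (by positivity), ← Real.rpow_mul hyp]
      norm_num
    have e3 : (2 : ℝ) ^ (8 / 9 : ℝ) ≤ 2 := by
      calc (2 : ℝ) ^ (8 / 9 : ℝ) ≤ 2 ^ (1 : ℝ) :=
            Real.rpow_le_rpow_of_exponent_le (by norm_num) (by norm_num)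
        _ = 2 := Real.rpow_one 2
    have e4 : (0 : ℝ) ≤ (y / p) ^ (4 / 3 : ℝ) := by positivity
    rw [e2] at e1
    nlinarith
  have hmain := EntB_gibbs (a := f / 2) (b := f * r) (by positivity) (by nlinarith) hfr
  have e8 : -Real.log (f / 2) = Real.log (2 / f) := by
    rw [← Real.log_inv, inv_div]
  rw [e8] at hmain
  refine hmain.trans ?_
  have e9 : (f * r - f / 2) * Real.log (2 / f) = (r - 1 / 2) * (f * Real.log (2 / f)) := by ring
  rw [e9]
  have e10 : ((p : ℝ) / y) ^ (1 / 12 : ℝ) * (y / p) ^ (4 / 3 : ℝ) = (y / p) ^ (5 / 4 : ℝ) := by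
    have e11 : (p : ℝ) / y = (y / p)⁻¹ := (inv_div _ _).symm
    have hyp : 0 < y / p := by positivity
    rw [e11, Real.inv_rpow hyp.le, ← Real.rpow_neg hyp.le, ← Real.rpow_add hyp]
    norm_num
  calc (r - 1 / 2) * (f * Real.log (2 / f)) ≤
        (6 * sg y * ((p : ℝ) / y) ^ (1 / 12 : ℝ)) * (36 * (y / p) ^ (4 / 3 : ℝ)) :=
        mul_le_mul hr hbd (mul_nonneg f0.le hlog) (by positivity)
    _ = 216 * sg y * (((p : ℝ) / y) ^ (1 / 12 : ℝ) * (y / p) ^ (4 / 3 : ℝ)) := by ring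
    _ = _ := by rw [e10]

private lemma EntB_blocks {y : ℝ} (hy : 1 < y) (z I : ℕ) :
    ∑ p ∈ (Nat.primesBelow (z + 1)).filter (fun p : ℕ => y < (p : ℝ) ∧ (p : ℝ) ≤ 16 ^ I * y),
      (y / p) ^ (5 / 4 : ℝ) ≤ ∑ i ∈ Finset.range I, 80 * y / Real.log y * (1 / 2) ^ i := by
  have hΛ : 0 < Real.log y := Real.log_pos hy
  induction I with
  | zero =>
    rw [Finset.sum_range_zero]
    apply le_of_eq
    apply Finset.sum_eq_zero
    intro p hp
    rw [Finset.mem_filter] at hp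
    exfalso
    have := hp.2
    simp only [pow_zero, one_mul] at this
    linarith [this.1, this.2]
  | succ I ih =>
    rw [Finset.sum_range_succ]
    have hsub : (Nat.primesBelow (z + 1)).filter
        (fun p : ℕ => y < (p : ℝ) ∧ (p : ℝ) ≤ 16 ^ (I + 1) * y) ⊆
        (Nat.primesBelow (z + 1)).filter (fun p : ℕ => y < (p : ℝ) ∧ (p : ℝ) ≤ 16 ^ I * y) ∪
        (Nat.primesBelow (z + 1)).filter
          (fun p : ℕ => 16 ^ I * y < (p : ℝ) ∧ (p : ℝ) ≤ 16 ^ (I + 1) * y) := by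
      intro p hp
      rw [Finset.mem_filter] at hp
      rw [Finset.mem_union, Finset.mem_filter, Finset.mem_filter]
      by_cases h : (p : ℝ) ≤ 16 ^ I * y
      · left; exact ⟨hp.1, hp.2.1, h⟩
      · right; push Not at h; exact ⟨hp.1, h, hp.2.2⟩
    refine (Finset.sum_le_sum_of_subset_of_nonneg hsub (fun p _ _ => by positivity)).trans ?_
    refine le_trans (le_of_le_of_eq (le_add_of_nonneg_right (Finset.sum_nonneg
      (fun p _ => by positivity))) (Finset.sum_union_inter)) ?_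
    refine add_le_add ih ?_
    calc ∑ p ∈ (Nat.primesBelow (z + 1)).filter
          (fun p : ℕ => 16 ^ I * y < (p : ℝ) ∧ (p : ℝ) ≤ 16 ^ (I + 1) * y), (y / p) ^ (5 / 4 : ℝ)
        ≤ ∑ p ∈ (Nat.primesBelow (z + 1)).filter
          (fun p : ℕ => 16 ^ I * y < (p : ℝ) ∧ (p : ℝ) ≤ 16 ^ (I + 1) * y),
            (1 / 32 : ℝ) ^ I := by
          refine Finset.sum_le_sum fun p hp => ?_
          rw [Finset.mem_filter] at hp
          have hp0 : (0 : ℝ) < p := lt_trans (by positivity) hp.2.1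
          have e1 : y / p ≤ (1 / 16 : ℝ) ^ I := by
            rw [div_le_iff₀ hp0, one_div, inv_pow, inv_mul_eq_div, le_div_iff₀ (by positivity)]
            linarith [hp.2.1]
          calc (y / p) ^ (5 / 4 : ℝ) ≤ ((1 / 16 : ℝ) ^ I) ^ (5 / 4 : ℝ) :=
                Real.rpow_le_rpow (by positivity) e1 (by norm_num)
            _ = (1 / 32 : ℝ) ^ I := by
                rw [← Real.rpow_natCast, ← Real.rpow_mul (by norm_num), mul_comm,
                  Real.rpow_mul (by norm_num), Real.rpow_natCast]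
                congr 1
                rw [show (1 / 16 : ℝ) = (1 / 2) ^ (4 : ℝ) by norm_num,
                  ← Real.rpow_mul (by norm_num)]
                norm_num
      _ = (((Nat.primesBelow (z + 1)).filter
          (fun p : ℕ => 16 ^ I * y < (p : ℝ) ∧ (p : ℝ) ≤ 16 ^ (I + 1) * y)).card : ℝ) *
            (1 / 32 : ℝ) ^ I := by rw [Finset.sum_const, nsmul_eq_mul]
      _ ≤ (5 * (16 ^ (I + 1) * y) / Real.log y) * (1 / 32 : ℝ) ^ I := by
          apply mul_le_mul_of_nonneg_right _ (by positivity)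
          have e1 : (((Nat.primesBelow (z + 1)).filter
              (fun p : ℕ => 16 ^ I * y < (p : ℝ) ∧ (p : ℝ) ≤ 16 ^ (I + 1) * y)).card : ℝ) ≤
              (((Nat.primesBelow (z + 1)).filter
              (fun p : ℕ => (p : ℝ) ≤ 16 ^ (I + 1) * y)).card : ℝ) := by
            have : (Nat.primesBelow (z + 1)).filter
              (fun p : ℕ => 16 ^ I * y < (p : ℝ) ∧ (p : ℝ) ≤ 16 ^ (I + 1) * y) ⊆
              (Nat.primesBelow (z + 1)).filter (fun p : ℕ => (p : ℝ) ≤ 16 ^ (I + 1) * y) := by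
              intro p hp
              rw [Finset.mem_filter] at hp ⊢
              exact ⟨hp.1, hp.2.2⟩
            exact_mod_cast Finset.card_le_card this
          have hge : y ≤ 16 ^ (I + 1) * y := by
            have : (1 : ℝ) ≤ 16 ^ (I + 1) := one_le_pow₀ (by norm_num)
            nlinarith
          have e2 := card_primes_le z (16 ^ (I + 1) * y)
          have e3 := pi_le_five (x := 16 ^ (I + 1) * y) (by linarith)
          refine (e1.trans (e2.trans e3)).trans ?_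
          apply div_le_div_of_nonneg_left (by positivity) hΛ
          exact Real.log_le_log (by linarith) hge
      _ = 80 * y / Real.log y * (1 / 2) ^ I := by
          rw [pow_succ, one_div_pow, one_div_pow]
          rw [show (32 : ℝ) ^ I = 16 ^ I * 2 ^ I by rw [← mul_pow]; norm_num]
          field_simp
          ring

private lemma EntB_sum {y : ℝ} (hy : 1 < y) (z : ℕ) :
    ∑ p ∈ (Nat.primesBelow (z + 1)).filter (fun p : ℕ => y < (p : ℝ)),
      (y / p) ^ (5 / 4 : ℝ) ≤ 160 * y / Real.log y := by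
  have hΛ : 0 < Real.log y := Real.log_pos hy
  obtain ⟨I, hI⟩ := pow_unbounded_of_one_lt (z : ℝ) (by norm_num : (1 : ℝ) < 16)
  have h1 := EntB_blocks hy z I
  have hsub : (Nat.primesBelow (z + 1)).filter (fun p : ℕ => y < (p : ℝ)) ⊆
      (Nat.primesBelow (z + 1)).filter (fun p : ℕ => y < (p : ℝ) ∧ (p : ℝ) ≤ 16 ^ I * y) := by
    intro p hp
    rw [Finset.mem_filter] at hp ⊢
    refine ⟨hp.1, hp.2, ?_⟩
    have h2 := (Nat.mem_primesBelow.1 hp.1).1
    have h3 : (p : ℝ) ≤ z := by exact_mod_cast (by omega : p ≤ z)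
    have h4 : (0 : ℝ) < 16 ^ I := by positivity
    nlinarith
  refine (Finset.sum_le_sum_of_subset_of_nonneg hsub (fun p _ _ => by positivity)).trans
    (h1.trans ?_)
  rw [← Finset.mul_sum]
  have h2 : ∑ i ∈ Finset.range I, (1 / 2 : ℝ) ^ i ≤ 2 := by
    have := geom_sum_eq (by norm_num : (1 / 2 : ℝ) ≠ 1) I
    rw [this]
    have h3 : (0 : ℝ) ≤ (1 / 2) ^ I := by positivity
    rw [div_le_iff_of_neg (by norm_num)]
    linarith
  calc 80 * y / Real.log y * ∑ i ∈ Finset.range I, (1 / 2 : ℝ) ^ i ≤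
        80 * y / Real.log y * 2 := mul_le_mul_of_nonneg_left h2 (by positivity)
    _ = _ := by ring

theorem ent_bias {ε : ℝ} (hε : 0 < ε) : ∀ᶠ y : ℝ in atTop, ∀ X : ℝ, X ≤ y ^ (5 / 4 : ℝ) →
    ∑ p ∈ PP X, (Real.binEntropy (ff y p * rr y p) - Real.binEntropy (ff y p / 2)) ≤
      ε * (y / Real.log y) := by
  filter_upwards [eventually_gt_atTop (1 : ℝ),
    Real.tendsto_log_atTop.eventually_ge_atTop (34560 / ε)] with y hy hly X hX
  have hΛ : 0 < Real.log y := Real.log_pos hy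
  have hy0 : 0 < y := by linarith
  have hX2 : X ≤ y ^ 2 := by
    refine hX.trans ?_
    rw [← Real.rpow_natCast]
    exact Real.rpow_le_rpow_of_exponent_le hy.le (by norm_num)
  have hσ : 0 < sg y := div_pos (Real.log_pos (by norm_num)) hΛ
  have hσ2 : sg y * 34560 ≤ ε := by
    unfold sg
    rw [div_mul_eq_mul_div, div_le_iff₀ hΛ]
    have h1 := Real.log_two_lt_d9
    have h2 : 34560 ≤ ε * Real.log y := by
      rw [div_le_iff₀ hε] at hly
      linarith
    linarith
  have hsub : (PP X).filter (fun p : ℕ => y < (p : ℝ)) ⊆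
      (Nat.primesBelow (⌊X⌋₊ + 1)).filter (fun p : ℕ => y < (p : ℝ)) := by
    intro p hp
    rw [Finset.mem_filter, PP, Nat.mem_primesLE] at hp
    rw [Finset.mem_filter, Nat.mem_primesBelow]
    exact ⟨⟨by omega, hp.1.2⟩, hp.2⟩
  have h1 : ∑ p ∈ PP X, (Real.binEntropy (ff y p * rr y p) - Real.binEntropy (ff y p / 2)) ≤
      ∑ p ∈ PP X, if y < (p : ℝ) then 216 * sg y * (y / p) ^ (5 / 4 : ℝ) else 0 := by
    refine Finset.sum_le_sum fun p hp => ?_
    rw [PP, Nat.mem_primesLE] at hp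
    have hpX : (p : ℝ) ≤ X := (Nat.le_floor_iff' hp.2.ne_zero).1 hp.1
    by_cases c : y < (p : ℝ)
    · rw [if_pos c]
      exact EntB_term hy c (hpX.trans hX2)
    · rw [if_neg c]
      push Not at c
      rw [rr_le hy hp.2.one_lt.le c, mul_one_div, sub_self]
  refine h1.trans ?_
  rw [← Finset.sum_filter, ← Finset.mul_sum]
  have h2 := Finset.sum_le_sum_of_subset_of_nonneg (f := fun p : ℕ => (y / p) ^ (5 / 4 : ℝ)) hsub
    (fun p _ _ => by positivity)
  have h3 := EntB_sum hy ⌊X⌋₊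
  calc 216 * sg y * ∑ p ∈ (PP X).filter (fun p : ℕ => y < (p : ℝ)), (y / p) ^ (5 / 4 : ℝ) ≤
        216 * sg y * (160 * y / Real.log y) :=
        mul_le_mul_of_nonneg_left (h2.trans h3) (by positivity)
    _ = (sg y * 34560) * (y / Real.log y) := by ring
    _ ≤ ε * (y / Real.log y) := mul_le_mul_of_nonneg_right hσ2 (by positivity)

end Pool.Agent.H96.LK4
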