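import Pool.Agent.H96.LK4.EntA
import Pool.Agent.H96.LK4.EntB
import Pool.Agent.H96.LK3.EntI

/-!
# LK4 Ent2: the entropy of the random set is at least the entropy of the random subset
-/

set_option autoImplicit false

namespace Pool.Agent.H96.LK4

open Finset Filter Topology Pool.Agent.H96.KMF Pool.Agent.H96.LK3

theorem ent2 : ∀ᶠ y : ℝ in atTop, ∀ X : ℝ, y ^ (11 / 10 : ℝ) ≤ X → X ≤ y ^ (5 / 4 : ℝ) →
    ∑ p ∈ PP X, Real.binEntropy (ff y p * rr y p) ≤ ∑ p ∈ PP X, Real.binEntropy (ff y p) := by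
  have hε : (0 : ℝ) < 1 / 100 := by norm_num
  filter_upwards [ff_lower hε, ffsq_upper hε, ent_bias hε, eventually_gt_atTop (1 : ℝ)]
    with y h1 h2 h3 hy X hX1 hX2
  have a1 := h1 X hX1
  have a2 := h2 X hX2
  have a3 := h3 X hX2
  have hL : 0 < y / Real.log y := div_pos (by linarith) (Real.log_pos hy)
  have hpp : ∀ p ∈ PP X, 1 ≤ p := by
    intro p hp
    have : p.Prime := (Nat.mem_primesLE.mp hp).2
    exact this.one_lt.le
  have hm : ∑ p ∈ PP X, (1.13 * ff y p - (1.13 + Real.log 2) * ff y p ^ 2) ≤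
      ∑ p ∈ PP X, (Real.binEntropy (ff y p) - Real.binEntropy (ff y p / 2)) :=
    Finset.sum_le_sum fun p hp => ent_minor (ff_bounds hy (hpp p hp)).1.le
      (ff_bounds hy (hpp p hp)).2
  rw [Finset.sum_sub_distrib, Finset.sum_sub_distrib, ← Finset.mul_sum, ← Finset.mul_sum] at hm
  rw [Finset.sum_sub_distrib] at a3
  have l1 : Real.log 2 < 0.6931471808 := Real.log_two_lt_d9
  have l0 : 0 < Real.log 2 := Real.log_pos one_lt_two
  have p1 : Real.pi < 3.141593 := Real.pi_lt_d6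
  have p0 : 0 < Real.pi := Real.pi_pos
  have b2 : (1.13 + Real.log 2) * ∑ p ∈ PP X, ff y p ^ 2 ≤
      (1.13 + Real.log 2) * ((Real.pi / 2 + 1 / 100) * (y / Real.log y)) :=
    mul_le_mul_of_nonneg_left a2 (by linarith)
  have c1 : (1 / 100 : ℝ) + (1.13 + Real.log 2) * (Real.pi / 2 + 1 / 100) ≤
      1.13 * (1 + Real.pi / 2 - 1 / 100) := by
    nlinarith [mul_pos l0 p0]
  have c2 := mul_le_mul_of_nonneg_right c1 hL.le
  nlinarith [mul_le_mul_of_nonneg_left a1 (by norm_num : (0 : ℝ) ≤ 1.13)]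

end Pool.Agent.H96.LK4
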