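import Pool.Agent.H96.LK4.SumF
import Pool.Agent.H96.LK3.SumA

/-!
# LK4 EntA: the sums of `ff` and `ff ^ 2`

For fixed large `K`: `y < p ≤ K y`: `fa y p / (1 + sg y * log K) ≤ ff y p ≤ fa y p * exp (sg y * (log K)^2)`
by `tt_bounds` (`fa = 2 /(1 + x^2)`, `p = x y`; `2 rr ≤ 1 + σ log x`), and `rb_asym`, `fsq_upper` of
LK3/SumA; the part `p > K y`: `ff ≤ 2 (y/p)^(3/2)`, so the sum of `ff^2 ≤ 4 (y/p)^3` is at most
`(4/K)` times the sum of `(y/p)^(3/2)`, which is `≤ 40 y/log y` (`sum_c'`).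
-/

set_option autoImplicit false

namespace Pool.Agent.H96.LK4

open Finset Filter Topology Pool.Agent.H96.KMF Pool.Agent.H96.LK3

private theorem EntA_mem {X : ℝ} {p : ℕ} : p ∈ PP X ↔ (p : ℝ) ≤ X ∧ p.Prime := by
  unfold PP
  rw [Nat.mem_primesLE]
  constructor
  · rintro ⟨h, hp⟩
    exact ⟨(Nat.le_floor_iff' hp.ne_zero).1 h, hp⟩
  · rintro ⟨h, hp⟩
    exact ⟨(Nat.le_floor_iff' hp.ne_zero).2 h, hp⟩

private theorem EntA_sg {y : ℝ} (hy : 1 < y) : 0 < sg y :=
  div_pos (Real.log_pos (by norm_num)) (Real.log_pos hy)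

private theorem EntA_fa {y : ℝ} (hy : 1 < y) {p : ℕ} (h : y < (p : ℝ)) :
    fa y p = 2 * ((y / p) ^ 2 / (1 + (y / p) ^ 2)) := by
  have hy0 : (0 : ℝ) < y := by linarith
  have hp0 : (0 : ℝ) < p := by linarith
  unfold fa
  rw [if_neg (not_le.2 h)]
  field_simp
  ring

private theorem EntA_rr {y K : ℝ} (hy : 1 < y) {p : ℕ} (h : y < (p : ℝ))
    (hp : (p : ℝ) ≤ K * y) : 2 * rr y p ≤ 1 + sg y * Real.log K := by
  have hy0 : (0 : ℝ) < y := by linarith
  have hp0 : (0 : ℝ) < p := by linarith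
  have hl : 0 < Real.log y := Real.log_pos hy
  have hK0 : 0 < K := by
    by_contra hK
    rw [not_lt] at hK
    nlinarith
  have hsg := EntA_sg hy
  have h1 : Real.log p ≤ Real.log K + Real.log y := by
    rw [← Real.log_mul hK0.ne' hy0.ne']
    exact Real.log_le_log hp0 hp
  have h2 : sg y * Real.log y = Real.log 2 := by
    unfold sg
    field_simp
  have h3 : (p : ℝ) ^ (-sg y) = Real.exp (-(sg y * Real.log p)) := by
    rw [Real.rpow_def_of_pos hp0]
    congr 1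
    ring
  have h4 : -(sg y * Real.log K) - Real.log 2 ≤ -(sg y * Real.log p) := by
    have := mul_le_mul_of_nonneg_left h1 hsg.le
    rw [mul_add, h2] at this
    linarith
  have h5 : Real.exp (-(sg y * Real.log K) - Real.log 2) =
      Real.exp (-(sg y * Real.log K)) / 2 := by
    rw [Real.exp_sub, Real.exp_log (by norm_num)]
  have h6 := Real.add_one_le_exp (-(sg y * Real.log K))
  have h7 := Real.exp_le_exp.2 h4
  rw [h5, ← h3] at h7
  rw [rr_gt hy h]
  linarith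

private theorem EntA_low {y K : ℝ} (hy : 1 < y) (hK : 1 ≤ K) {p : ℕ} (hp1 : 1 ≤ p)
    (hp : (p : ℝ) ≤ K * y) : fa y p ≤ (1 + sg y * Real.log K) * ff y p := by
  have hsg := EntA_sg hy
  have hlK : 0 ≤ Real.log K := Real.log_nonneg hK
  have hs : 0 ≤ sg y * Real.log K := mul_nonneg hsg.le hlK
  rcases le_or_gt (p : ℝ) y with h1 | h1
  · rw [ff_le hy hp1 h1]
    unfold fa
    rw [if_pos h1]
    linarith
  · have hy0 : (0 : ℝ) < y := by linarith
    have hp0 : (0 : ℝ) < p := by linarith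
    obtain ⟨t1, _⟩ := tt_bounds hy h1
    have hr := EntA_rr hy h1 hp
    obtain ⟨hr1, _⟩ := rr_bounds hy hp1
    have hu : 0 < (y / p) ^ 2 := by positivity
    rw [EntA_fa hy h1]
    unfold ff
    have ht : 0 < tt y p := lt_of_lt_of_le hu t1
    have hr0 : 0 < rr y p := by linarith
    have e1 : (1 + sg y * Real.log K) * (tt y p / ((1 + tt y p) * rr y p)) =
        ((1 + sg y * Real.log K) / rr y p) * (tt y p / (1 + tt y p)) := by
      field_simp
    rw [e1]
    have e2 : 2 ≤ (1 + sg y * Real.log K) / rr y p := by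
      rw [le_div_iff₀ hr0]
      linarith
    have e3 : (y / p) ^ 2 / (1 + (y / p) ^ 2) ≤ tt y p / (1 + tt y p) := by
      rw [div_le_div_iff₀ (by positivity) (by positivity)]
      nlinarith
    have e4 : 0 ≤ (y / p) ^ 2 / (1 + (y / p) ^ 2) := by positivity
    exact mul_le_mul e2 e3 e4 (by linarith)

private theorem EntA_up {y K : ℝ} (hy : 1 < y) {p : ℕ} (hp1 : 1 ≤ p)
    (hp : (p : ℝ) ≤ K * y) : ff y p ≤ fa y p * Real.exp (sg y * Real.log K ^ 2) := by
  have hsg := EntA_sg hy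
  have hE : 1 ≤ Real.exp (sg y * Real.log K ^ 2) := Real.one_le_exp (by positivity)
  rcases le_or_gt (p : ℝ) y with h1 | h1
  · rw [ff_le hy hp1 h1]
    unfold fa
    rw [if_pos h1, one_mul]
    exact hE
  · have hy0 : (0 : ℝ) < y := by linarith
    have hp0 : (0 : ℝ) < p := by linarith
    obtain ⟨t1, t2⟩ := tt_bounds hy h1
    obtain ⟨hr1, _⟩ := rr_bounds hy hp1
    have hu : 0 < (y / p) ^ 2 := by positivity
    have ht : 0 < tt y p := lt_of_lt_of_le hu t1
    have hr0 : 0 < rr y p := by linarith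
    have hx1 : 1 ≤ (p : ℝ) / y := by rw [one_le_div hy0]; exact h1.le
    have hxK : (p : ℝ) / y ≤ K := by rw [div_le_iff₀ hy0]; exact hp
    have hlx : 0 ≤ Real.log (p / y) := Real.log_nonneg hx1
    have hlxK : Real.log (p / y) ≤ Real.log K := Real.log_le_log (by positivity) hxK
    have hd : sg y * Real.log (p / y) ^ 2 ≤ sg y * Real.log K ^ 2 :=
      mul_le_mul_of_nonneg_left (pow_le_pow_left₀ hlx hlxK 2) hsg.le
    have t3 : tt y p ≤ (y / p) ^ 2 * Real.exp (sg y * Real.log K ^ 2) :=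
      t2.trans (mul_le_mul_of_nonneg_left (Real.exp_le_exp.2 hd) hu.le)
    set E := Real.exp (sg y * Real.log K ^ 2) with hEdef
    rw [EntA_fa hy h1]
    unfold ff
    have e1 : tt y p / ((1 + tt y p) * rr y p) = (1 / rr y p) * (tt y p / (1 + tt y p)) := by
      field_simp
    have e2 : 1 / rr y p ≤ 2 := by
      rw [div_le_iff₀ hr0]
      linarith
    have e3 : tt y p / (1 + tt y p) ≤ (y / p) ^ 2 / (1 + (y / p) ^ 2) * E := by
      rw [div_mul_eq_mul_div, div_le_div_iff₀ (by positivity) (by positivity)]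
      have e4 : tt y p * (y / p) ^ 2 ≤ tt y p * (y / p) ^ 2 * E := by
        nlinarith [mul_pos ht hu]
      nlinarith
    rw [e1]
    calc 1 / rr y p * (tt y p / (1 + tt y p)) ≤ 2 * ((y / p) ^ 2 / (1 + (y / p) ^ 2) * E) :=
          mul_le_mul e2 e3 (by positivity) (by norm_num)
      _ = _ := by ring

private theorem EntA_sg_lim : Tendsto sg atTop (𝓝 0) :=
  tendsto_const_nhds.div_atTop Real.tendsto_log_atTop

theorem ff_lower {ε : ℝ} (hε : 0 < ε) : ∀ᶠ y : ℝ in atTop, ∀ X : ℝ, y ^ (11 / 10 : ℝ) ≤ X →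
    (1 + Real.pi / 2 - ε) * (y / Real.log y) ≤ ∑ p ∈ PP X, ff y p := by
  have h1 : ∀ᶠ K : ℝ in atTop, Real.pi / 2 - ε / 8 < Real.arctan K := by
    have h2 := Real.tendsto_arctan_atTop.mono_right (nhdsWithin_le_nhds (s := Set.Iio (Real.pi / 2)))
    exact h2.eventually (lt_mem_nhds (by linarith))
  obtain ⟨K, hK, hK1⟩ := (h1.and (eventually_ge_atTop 1)).exists
  have hlim : Tendsto (fun y : ℝ => sg y * Real.log K) atTop (𝓝 0) := by
    have := EntA_sg_lim.mul_const (Real.log K)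
    rwa [zero_mul] at this
  filter_upwards [rb_asym hK1 (show 0 < ε / 4 by positivity), eventually_gt_atTop 1,
    hlim.eventually (gt_mem_nhds (show 0 < ε / 6 by positivity)),
    (tendsto_rpow_atTop (show (0 : ℝ) < 1 / 10 by norm_num)).eventually_ge_atTop K]
    with y hr hy hs hyK X hX
  have hy0 : (0 : ℝ) < y := by linarith
  have hl : 0 < Real.log y := Real.log_pos hy
  have hKX : K * y ≤ X := by
    refine le_trans ?_ hX
    calc K * y ≤ y ^ (1 / 10 : ℝ) * y := mul_le_mul_of_nonneg_right hyK hy0.le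
      _ = y ^ (11 / 10 : ℝ) := by
        rw [← Real.rpow_add_one hy0.ne']
        norm_num
  have hsub : PP (K * y) ⊆ PP X := fun p hp => by
    rw [EntA_mem] at hp ⊢
    exact ⟨hp.1.trans hKX, hp.2⟩
  have e1 : ∑ p ∈ PP (K * y), ff y p ≤ ∑ p ∈ PP X, ff y p :=
    Finset.sum_le_sum_of_subset_of_nonneg hsub fun p hp _ =>
      (ff_bounds hy (EntA_mem.1 hp).2.one_le).1.le
  have e2 : rb y K ≤ (1 + sg y * Real.log K) * ∑ p ∈ PP (K * y), ff y p := by
    unfold rb
    rw [Finset.mul_sum]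
    refine Finset.sum_le_sum fun p hp => ?_
    rw [EntA_mem] at hp
    exact EntA_low hy hK1 hp.2.one_le hp.1
  have hs0 : 0 ≤ sg y * Real.log K := mul_nonneg (EntA_sg hy).le (Real.log_nonneg hK1)
  have e3 := (abs_le.1 hr).1
  have hq : 0 < y / Real.log y := div_pos hy0 hl
  set q := y / Real.log y with hqd
  set s := sg y * Real.log K with hsd
  have e4 : (1 + Real.pi / 2 - ε / 2) * q ≤ rb y K := by
    have : (1 + Real.pi / 2 - ε / 2) * q ≤
        (1 + 2 * Real.arctan K - Real.pi / 2) * q - ε / 4 * q := by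
      rw [← sub_mul]
      exact mul_le_mul_of_nonneg_right (by linarith) hq.le
    linarith
  have e5 : (1 + Real.pi / 2 - ε) * (1 + s) ≤ 1 + Real.pi / 2 - ε / 2 := by
    have hpi : Real.pi ≤ 4 := Real.pi_le_four
    have a1 : (1 + Real.pi / 2 - ε) * s ≤ 3 * s := mul_le_mul_of_nonneg_right (by linarith) hs0
    have a2 : (1 + Real.pi / 2 - ε) * (1 + s) = (1 + Real.pi / 2 - ε) +
        (1 + Real.pi / 2 - ε) * s := by ring
    rw [a2]
    linarith
  have e6 : (1 + s) * ((1 + Real.pi / 2 - ε) * q) ≤ (1 + s) * ∑ p ∈ PP X, ff y p := by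
    calc (1 + s) * ((1 + Real.pi / 2 - ε) * q) = ((1 + Real.pi / 2 - ε) * (1 + s)) * q := by ring
      _ ≤ (1 + Real.pi / 2 - ε / 2) * q := mul_le_mul_of_nonneg_right e5 hq.le
      _ ≤ rb y K := e4
      _ ≤ (1 + s) * ∑ p ∈ PP (K * y), ff y p := e2
      _ ≤ (1 + s) * ∑ p ∈ PP X, ff y p := mul_le_mul_of_nonneg_left e1 (by linarith)
  exact le_of_mul_le_mul_left e6 (by linarith)

theorem ffsq_upper {ε : ℝ} (hε : 0 < ε) : ∀ᶠ y : ℝ in atTop, ∀ X : ℝ, X ≤ y ^ (5 / 4 : ℝ) →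
    ∑ p ∈ PP X, ff y p ^ 2 ≤ (Real.pi / 2 + ε) * (y / Real.log y) := by
  obtain ⟨K, hK, hK1⟩ := ((eventually_ge_atTop (320 / ε)).and (eventually_ge_atTop (1 : ℝ))).exists
  have hK0 : 0 < K := by linarith
  have hlim : Tendsto (fun y : ℝ => Real.exp (sg y * Real.log K ^ 2) ^ 2 * (Real.pi / 2 + ε / 4))
      atTop (𝓝 (Real.pi / 2 + ε / 4)) := by
    have h1 : Tendsto (fun y : ℝ => sg y * Real.log K ^ 2) atTop (𝓝 0) := by
      have := EntA_sg_lim.mul_const (Real.log K ^ 2)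
      rwa [zero_mul] at this
    have h2 := (((Real.continuous_exp.tendsto 0).comp h1).pow 2).mul_const (Real.pi / 2 + ε / 4)
    rw [Real.exp_zero, one_pow, one_mul] at h2
    exact h2
  filter_upwards [fsq_upper hK1 (show 0 < ε / 4 by positivity), eventually_gt_atTop 1,
    hlim.eventually (gt_mem_nhds (show Real.pi / 2 + ε / 4 < Real.pi / 2 + ε / 2 by linarith))]
    with y hf hy hE X hX
  have hy0 : (0 : ℝ) < y := by linarith
  have hl : 0 < Real.log y := Real.log_pos hy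
  have hq : 0 < y / Real.log y := div_pos hy0 hl
  have hXy : X ≤ y ^ 2 := by
    refine hX.trans ?_
    rw [← Real.rpow_natCast y 2]
    exact Real.rpow_le_rpow_of_exponent_le hy.le (by norm_num)
  rw [← Finset.sum_filter_add_sum_filter_not (PP X) (fun p : ℕ => (p : ℝ) ≤ K * y)]
  have e1 : ∑ p ∈ (PP X).filter (fun p : ℕ => (p : ℝ) ≤ K * y), ff y p ^ 2 ≤
      (Real.pi / 2 + ε / 2) * (y / Real.log y) := by
    have a1 : ∑ p ∈ (PP X).filter (fun p : ℕ => (p : ℝ) ≤ K * y), ff y p ^ 2 ≤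
        ∑ p ∈ PP (K * y), ff y p ^ 2 := by
      refine Finset.sum_le_sum_of_subset_of_nonneg (fun p hp => ?_) fun p _ _ => sq_nonneg _
      rw [Finset.mem_filter, EntA_mem] at hp
      exact EntA_mem.2 ⟨hp.2, hp.1.2⟩
    have a2 : ∑ p ∈ PP (K * y), ff y p ^ 2 ≤
        Real.exp (sg y * Real.log K ^ 2) ^ 2 * ∑ p ∈ PP (K * y), fa y p ^ 2 := by
      rw [Finset.mul_sum]
      refine Finset.sum_le_sum fun p hp => ?_
      rw [EntA_mem] at hp
      have b1 := EntA_up hy hp.2.one_le hp.1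
      have b2 := (ff_bounds hy hp.2.one_le).1.le
      calc ff y p ^ 2 ≤ (fa y p * Real.exp (sg y * Real.log K ^ 2)) ^ 2 := pow_le_pow_left₀ b2 b1 2
        _ = _ := by ring
    have a3 : Real.exp (sg y * Real.log K ^ 2) ^ 2 * ∑ p ∈ PP (K * y), fa y p ^ 2 ≤
        Real.exp (sg y * Real.log K ^ 2) ^ 2 * ((Real.pi / 2 + ε / 4) * (y / Real.log y)) :=
      mul_le_mul_of_nonneg_left hf (by positivity)
    have a4 : Real.exp (sg y * Real.log K ^ 2) ^ 2 * ((Real.pi / 2 + ε / 4) * (y / Real.log y)) ≤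
        (Real.pi / 2 + ε / 2) * (y / Real.log y) := by
      rw [← mul_assoc]
      exact mul_le_mul_of_nonneg_right hE.le hq.le
    linarith
  have e2 : ∑ p ∈ (PP X).filter (fun p : ℕ => ¬ (p : ℝ) ≤ K * y), ff y p ^ 2 ≤
      ε / 2 * (y / Real.log y) := by
    have a1 : ∑ p ∈ (PP X).filter (fun p : ℕ => ¬ (p : ℝ) ≤ K * y), ff y p ^ 2 ≤
        ∑ p ∈ (PP X).filter (fun p : ℕ => ¬ (p : ℝ) ≤ K * y), 4 / K *
          (if y < (p : ℝ) ∧ (p : ℝ) ≤ y ^ 2 then (y / p) ^ (3 / 2 : ℝ) else 0) := by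
      refine Finset.sum_le_sum fun p hp => ?_
      rw [Finset.mem_filter, EntA_mem, not_le] at hp
      obtain ⟨⟨c1, c2⟩, c3⟩ := hp
      have hyp : y < (p : ℝ) := by nlinarith
      have hp0 : (0 : ℝ) < p := by linarith
      have hp2 : (p : ℝ) ≤ y ^ 2 := c1.trans hXy
      rw [if_pos ⟨hyp, hp2⟩]
      have b1 := ff_small hy hyp hp2
      have b2 := (ff_bounds hy c2.one_le).1.le
      have b3 : 0 ≤ (y / p) ^ (3 / 2 : ℝ) := by positivity
      have b4 : (y / p) ^ (3 / 2 : ℝ) ≤ 1 / K := by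
        have d1 : y / p ≤ 1 / K := by
          rw [div_le_div_iff₀ hp0 hK0]
          linarith
        have d2 : y / p ≤ 1 := by rw [div_le_one hp0]; exact hyp.le
        calc (y / p) ^ (3 / 2 : ℝ) ≤ (y / p) ^ (1 : ℝ) :=
              Real.rpow_le_rpow_of_exponent_ge (by positivity) d2 (by norm_num)
          _ = y / p := Real.rpow_one _
          _ ≤ 1 / K := d1
      calc ff y p ^ 2 ≤ (2 * (y / p) ^ (3 / 2 : ℝ)) ^ 2 := pow_le_pow_left₀ b2 b1 2
        _ = 4 * (y / p) ^ (3 / 2 : ℝ) * (y / p) ^ (3 / 2 : ℝ) := by ring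
        _ ≤ 4 * (1 / K) * (y / p) ^ (3 / 2 : ℝ) :=
            mul_le_mul_of_nonneg_right (by linarith) b3
        _ = 4 / K * (y / p) ^ (3 / 2 : ℝ) := by ring
    have a2 : ∑ p ∈ (PP X).filter (fun p : ℕ => ¬ (p : ℝ) ≤ K * y), 4 / K *
          (if y < (p : ℝ) ∧ (p : ℝ) ≤ y ^ 2 then (y / p) ^ (3 / 2 : ℝ) else 0) ≤
        ∑ p ∈ Nat.primesBelow (⌊X⌋₊ + 1), 4 / K *
          (if y < (p : ℝ) ∧ (p : ℝ) ≤ y ^ 2 then (y / p) ^ (3 / 2 : ℝ) else 0) := by
      refine Finset.sum_le_sum_of_subset_of_nonneg (fun p hp => ?_) fun p _ _ => ?_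
      · have hp' := (Finset.mem_filter.1 hp).1
        unfold PP at hp'
        rw [Nat.mem_primesLE] at hp'
        exact Nat.mem_primesBelow.2 ⟨Nat.lt_succ_of_le hp'.1, hp'.2⟩
      · split_ifs
        · positivity
        · simp
    simp only [← Finset.mul_sum] at a1 a2
    have a3 := mul_le_mul_of_nonneg_left (sum_c' hy ⌊X⌋₊) (show (0 : ℝ) ≤ 4 / K by positivity)
    have a4 : 4 / K * (40 * y / Real.log y) ≤ ε / 2 * (y / Real.log y) := by
      have d1 : 4 / K * (40 * y / Real.log y) = (160 / K) * (y / Real.log y) := by ring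
      rw [d1]
      refine mul_le_mul_of_nonneg_right ?_ hq.le
      rw [div_le_iff₀ hK0]
      rw [div_le_iff₀ hε] at hK
      linarith
    linarith
  linarith

end Pool.Agent.H96.LK4
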