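import Pool.Agent.H96.LK4.EQ2
import Pool.Agent.H96.LK3.LowAs
import Pool.Agent.H96.LK3.Pnt

/-!
# LK4 Low: the lower bound for `-log (1 - c_k)`, for every `y ≥ 2`

`L = log k`.  (a) `y > L^(21/20)`: `LL y ≥ ∑_{p ≤ y} log 2 ≥ c y/log y > L log y/log 2` (`sum_le_LL`,
Chebyshev), so the left side is `≤ 0`.  (b) `Y0 ≤ y ≤ L^(21/20)`, `Y0` from `EQ2`: `lower_det` of
LK3/LowDet with `D = (LL y + y^(17/20))/L` and `e = log (10 L^2)/L`, multiplied by `L/log 2`:
`L log y/log 2 - LL y - y^(17/20) - log (10 L^2) ≤ -log (1-c)`, and `y^(17/20) ≤ L^(357/400)`.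
(c) `2 ≤ y < Y0`: the left side is at most `L log Y0/log 2` (`LL_nonneg`), and
`-log (1-c) ≥ (L/log 2) (log log k - 10)` or so by `lower_asym` of LK3/LowAs.
-/

set_option autoImplicit false

namespace Pool.Agent.H96.LK4

open Finset Filter Topology Pool.Agent.H96.KMF Pool.Agent.H96.LK3

private lemma Low_big : ∃ Y : ℝ, ∀ y : ℝ, Y ≤ y → ∀ L : ℝ, 0 ≤ L → L ≤ y ^ (20 / 21 : ℝ) →
    L * Real.log y / Real.log 2 ≤ LL y := by
  have hl2 : 0 < Real.log 2 := Real.log_pos (by norm_num)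
  have hlit := (isLittleO_log_rpow_rpow_atTop (2 : ℝ) (by norm_num : (0 : ℝ) < 1 / 21)).bound
    (by positivity : (0 : ℝ) < Real.log 2 ^ 2 / 2)
  have hpi := pi_asym.eventually_const_le (u := 1 / 2) (by norm_num)
  obtain ⟨Y, hY⟩ := eventually_atTop.1 ((hlit.and hpi).and (eventually_ge_atTop (Real.exp 1)))
  refine ⟨Y, fun y hy L hL0 hL => ?_⟩
  obtain ⟨⟨h1, h2⟩, h3⟩ := hY y hy
  have hy1 : 1 < y := lt_of_lt_of_le (by
    have := Real.add_one_lt_exp (one_ne_zero); linarith) h3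
  have hy0 : 0 < y := by linarith
  have hΛ : 0 < Real.log y := Real.log_pos hy1
  rw [Real.norm_eq_abs, Real.norm_eq_abs, abs_of_nonneg (by positivity),
    abs_of_nonneg (by positivity),
    show (2 : ℝ) = ((2 : ℕ) : ℝ) by norm_num, Real.rpow_natCast] at h1
  push_cast at h1
  rw [le_div_iff₀ hy0] at h2
  -- the sum over the primes up to `y`
  have h4 : (Nat.primeCounting ⌊y⌋₊ : ℝ) * Real.log 2 ≤ LL y := by
    have h5 := sum_le_LL h3 (PP y) (fun p hp => (Nat.mem_primesLE.1 hp).2)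
    refine le_trans ?_ h5
    have h6 : ((PP y).card : ℝ) = (Nat.primeCounting ⌊y⌋₊ : ℝ) := by
      unfold PP; rw [Nat.primesLE_card_eq_primeCounting]
    rw [← h6, ← nsmul_eq_mul]
    apply Finset.card_nsmul_le_sum
    intro p hp
    rw [PP, Nat.mem_primesLE, Nat.le_floor_iff hy0.le] at hp
    have hpr : (0 : ℝ) < p := by exact_mod_cast hp.2.pos
    rw [lw, if_pos hp.1]
    apply Real.log_le_log (by norm_num)
    rw [le_div_iff₀ hpr]
    linarith [hp.1]
  refine le_trans ?_ h4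
  rw [div_le_iff₀ hl2]
  have h7 : L * Real.log y ≤ y ^ (20 / 21 : ℝ) * Real.log y :=
    mul_le_mul_of_nonneg_right hL hΛ.le
  refine h7.trans ?_
  -- multiply by `log y`
  have h8 : y ^ (20 / 21 : ℝ) * Real.log y * Real.log y ≤
      (Nat.primeCounting ⌊y⌋₊ : ℝ) * Real.log 2 * Real.log 2 * Real.log y := by
    have e1 : y ^ (20 / 21 : ℝ) * y ^ (1 / 21 : ℝ) = y := by
      rw [← Real.rpow_add hy0]
      norm_num
    have e2 : y ^ (20 / 21 : ℝ) * Real.log y ^ 2 ≤
        y ^ (20 / 21 : ℝ) * (Real.log 2 ^ 2 / 2 * y ^ (1 / 21 : ℝ)) :=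
      mul_le_mul_of_nonneg_left h1 (by positivity)
    have e3 : y ^ (20 / 21 : ℝ) * (Real.log 2 ^ 2 / 2 * y ^ (1 / 21 : ℝ)) =
        Real.log 2 ^ 2 / 2 * y := by
      rw [← e1]
      have : y ^ (20 / 21 : ℝ) * y ^ (1 / 21 : ℝ) = y := e1
      rw [this]
      calc y ^ (20 / 21 : ℝ) * (Real.log 2 ^ 2 / 2 * y ^ (1 / 21 : ℝ)) =
          Real.log 2 ^ 2 / 2 * (y ^ (20 / 21 : ℝ) * y ^ (1 / 21 : ℝ)) := by ring
        _ = Real.log 2 ^ 2 / 2 * y := by rw [e1]
    have e4 : Real.log 2 ^ 2 * (1 / 2 * y) ≤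
        Real.log 2 ^ 2 * ((Nat.primeCounting ⌊y⌋₊ : ℝ) * Real.log y) :=
      mul_le_mul_of_nonneg_left h2 (by positivity)
    calc y ^ (20 / 21 : ℝ) * Real.log y * Real.log y = y ^ (20 / 21 : ℝ) * Real.log y ^ 2 := by
          ring
      _ ≤ Real.log 2 ^ 2 / 2 * y := by rw [← e3]; exact e2
      _ = Real.log 2 ^ 2 * (1 / 2 * y) := by ring
      _ ≤ _ := e4
      _ = _ := by ring
  exact le_of_mul_le_mul_right h8 hΛ

private lemma Low_num : ∀ᶠ L : ℝ in atTop,
    L ^ (357 / 400 : ℝ) + Real.log (10 * L ^ 2) ≤ L ^ (9 / 10 : ℝ) := by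
  have h1 := (tendsto_rpow_atTop (by norm_num : (0 : ℝ) < 3 / 400)).eventually_ge_atTop 2
  have h2 := (isLittleO_log_rpow_atTop (by norm_num : (0 : ℝ) < 9 / 10)).bound
    (by norm_num : (0 : ℝ) < 1 / 8)
  have h3 := (tendsto_rpow_atTop (by norm_num : (0 : ℝ) < 9 / 10)).eventually_ge_atTop
    (4 * Real.log 10)
  filter_upwards [h1, h2, h3, eventually_ge_atTop (1 : ℝ)] with L h1 h2 h3 h4
  have hL0 : 0 < L := by linarith
  rw [Real.norm_eq_abs, Real.norm_eq_abs, abs_of_nonneg (Real.log_nonneg h4),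
    abs_of_nonneg (by positivity)] at h2
  have e1 : L ^ (9 / 10 : ℝ) = L ^ (357 / 400 : ℝ) * L ^ (3 / 400 : ℝ) := by
    rw [← Real.rpow_add hL0]
    norm_num
  have e2 : L ^ (357 / 400 : ℝ) * 2 ≤ L ^ (9 / 10 : ℝ) := by
    rw [e1]
    exact mul_le_mul_of_nonneg_left h1 (by positivity)
  have e3 : Real.log (10 * L ^ 2) = Real.log 10 + 2 * Real.log L := by
    rw [Real.log_mul (by norm_num) (by positivity), Real.log_pow]
    push_cast
    ring
  rw [e3]
  linarith

theorem low4 : ∀ᶠ k : ℕ in atTop, ∀ c : ℝ, c < 1 →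
    Tendsto (fun n : ℕ => (gk k n : ℝ) / n) atTop (𝓝 c) → ∀ y : ℝ, 2 ≤ y →
    Real.log k * Real.log y / Real.log 2 - LL y ≤
      -Real.log (1 - c) + Real.log k ^ (9 / 10 : ℝ) := by
  have hl2 : 0 < Real.log 2 := Real.log_pos (by norm_num)
  obtain ⟨Y1, hY1⟩ := Low_big
  obtain ⟨Y2, hY2⟩ := eventually_atTop.1 EQ2
  obtain ⟨Y0, hY0⟩ : ∃ Y0 : ℝ, Y0 = max (max Y1 Y2) 16 := ⟨_, rfl⟩
  have h01 : Y1 ≤ Y0 := by rw [hY0]; exact (le_max_left _ _).trans (le_max_left _ _)
  have h02 : Y2 ≤ Y0 := by rw [hY0]; exact (le_max_right _ _).trans (le_max_left _ _)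
  have h03 : 16 ≤ Y0 := by rw [hY0]; exact le_max_right _ _
  have hlog : Tendsto (fun k : ℕ => Real.log k) atTop atTop :=
    Real.tendsto_log_atTop.comp tendsto_natCast_atTop_atTop
  have hpow := (tendsto_rpow_atTop (by norm_num : (0 : ℝ) < 21 / 20)).eventually_ge_atTop Y0
  have hlogL := (Real.isLittleO_log_id_atTop).bound (by norm_num : (0 : ℝ) < 1 / 2)
  obtain ⟨C, hC⟩ : ∃ C : ℝ, C = 1 + Real.log (1 + Real.pi / 2) + Real.log (Real.log 2) + 1 :=
    ⟨_, rfl⟩
  have hll : ∀ᶠ L : ℝ in atTop, Real.log Y0 + C ≤ Real.log L :=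
    Real.tendsto_log_atTop.eventually_ge_atTop _
  have hll2 : ∀ᶠ L : ℝ in atTop, 0 ≤ Real.log (Real.log L) :=
    (Real.tendsto_log_atTop.comp Real.tendsto_log_atTop).eventually_ge_atTop 0
  filter_upwards [lower_asym (show (0 : ℝ) < 1 by norm_num), hlog.eventually hpow,
    hlog.eventually hlogL, hlog.eventually hll, hlog.eventually hll2, hlog.eventually Low_num,
    hlog.eventually (eventually_ge_atTop (100 : ℝ))] with k ha hp hlL hl1 hl2' hnum hL100
    c hc1 hc y hy
  obtain ⟨L, hL⟩ : ∃ L, L = Real.log k := ⟨_, rfl⟩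
  simp only [id] at hlL
  rw [← hL] at hp hlL hl1 hl2' hnum hL100 ⊢
  have ha' := ha c hc1 hc
  rw [← hL] at ha'
  have hL0 : 0 < L := by linarith
  have hLr : 0 ≤ L ^ (9 / 10 : ℝ) := by positivity
  have hy1 : 1 < y := by linarith
  have hy0 : 0 < y := by linarith
  -- `-log (1 - c) ≥ 0`
  have hc0 : 0 ≤ c := ge_of_tendsto' hc fun n => by positivity
  have hneg : 0 ≤ -Real.log (1 - c) := by
    rw [neg_nonneg]
    exact Real.log_nonpos (by linarith) (by linarith)
  rcases lt_or_ge y Y0 with h | h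
  · -- (c)
    have h1 := LL_nonneg hy1
    have h2 : Real.log y ≤ Real.log Y0 := Real.log_le_log hy0 h.le
    have h3 : L * Real.log y / Real.log 2 ≤ L * Real.log Y0 / Real.log 2 := by
      apply div_le_div_of_nonneg_right _ hl2.le
      exact mul_le_mul_of_nonneg_left h2 hL0.le
    have h4 : Real.log Y0 ≤ -Real.log (1 - c) * (Real.log 2 / L) := by
      refine le_trans ?_ ha'
      linarith
    have h5 : L * Real.log Y0 / Real.log 2 ≤ -Real.log (1 - c) := by
      rw [div_le_iff₀ hl2]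
      have h6 := mul_le_mul_of_nonneg_left h4 hL0.le
      have h7 : L * (-Real.log (1 - c) * (Real.log 2 / L)) = -Real.log (1 - c) * Real.log 2 := by
        field_simp
      rw [h7] at h6
      exact h6
    linarith
  · rcases lt_or_ge (L ^ (21 / 20 : ℝ)) y with h' | h'
    · -- (a)
      have h1 : L ≤ y ^ (20 / 21 : ℝ) := by
        have e1 : (L ^ (21 / 20 : ℝ)) ^ (20 / 21 : ℝ) = L := by
          rw [← Real.rpow_mul hL0.le]
          norm_num
        calc L = (L ^ (21 / 20 : ℝ)) ^ (20 / 21 : ℝ) := e1.symm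
          _ ≤ y ^ (20 / 21 : ℝ) := Real.rpow_le_rpow (by positivity) h'.le (by norm_num)
      have h2 := hY1 y (h01.trans h) L hL0.le h1
      linarith
    · -- (b)
      have h16 : 16 ≤ y := h03.trans h
      have hyL : Real.log y ≤ L := by
        have e1 : Real.log y ≤ 21 / 20 * Real.log L := by
          have := Real.log_le_log hy0 h'
          rwa [Real.log_rpow hL0] at this
        rw [Real.norm_eq_abs, Real.norm_eq_abs, abs_of_nonneg (Real.log_nonneg (by linarith)),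
          abs_of_nonneg hL0.le] at hlL
        linarith
      have h17 : y ^ (17 / 20 : ℝ) ≤ L ^ (357 / 400 : ℝ) := by
        calc y ^ (17 / 20 : ℝ) ≤ (L ^ (21 / 20 : ℝ)) ^ (17 / 20 : ℝ) :=
              Real.rpow_le_rpow hy0.le h' (by norm_num)
          _ = L ^ (357 / 400 : ℝ) := by
              rw [← Real.rpow_mul hL0.le]
              norm_num
      have hLL := LL_nonneg hy1
      have h10 : (0 : ℝ) < 10 * L ^ 2 := by positivity
      have h10' : 0 ≤ Real.log (10 * L ^ 2) := Real.log_nonneg (by nlinarith)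
      have hmain := lower_det (L := L) (y := y) (D := (LL y + y ^ (17 / 20 : ℝ)) / L)
        (e := Real.log (10 * L ^ 2) / L) hL100 h16 hyL (by positivity) (by positivity)
        (fun z => by
          rw [div_mul_cancel₀ _ hL0.ne']
          exact hY2 y (h02.trans h) z)
        (by
          rw [div_mul_cancel₀ _ hL0.ne', Real.exp_log h10]) k hL.symm c hc1 hc
      have h5 : L * Real.log y / Real.log 2 -
          (LL y + y ^ (17 / 20 : ℝ) + Real.log (10 * L ^ 2)) ≤ -Real.log (1 - c) := by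
        have h6 := mul_le_mul_of_nonneg_left hmain (show 0 ≤ L / Real.log 2 by positivity)
        have e1 : L / Real.log 2 * (Real.log y - ((LL y + y ^ (17 / 20 : ℝ)) / L +
            Real.log (10 * L ^ 2) / L) * Real.log 2) = L * Real.log y / Real.log 2 -
          (LL y + y ^ (17 / 20 : ℝ) + Real.log (10 * L ^ 2)) := by
          field_simp
        have e2 : L / Real.log 2 * (-Real.log (1 - c) * (Real.log 2 / L)) =
            -Real.log (1 - c) := by
          field_simp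
        rw [e1, e2] at h6
        exact h6
      linarith

end Pool.Agent.H96.LK4
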