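import Pool.Agent.H96.LK4.Up
import Pool.Agent.H96.LK4.Low
import Pool.Agent.H96.LK3.Final

/-!
# LK4 Final: the limit density of `k`-multiple-free sets for large `k`, exact form
-/

set_option autoImplicit false

namespace Pool.Agent.H96.LK4

open Finset Filter Topology Pool.Agent.H96.KMF Pool.Agent.H96.LK3

/-- `log (1 / (1 - c_k)) = max_{y ≥ 2} (log k * log y / log 2 - LL y) + O ((log k) ^ (9/10))`. -/
theorem large_k_formula : ∃ c : ℕ → ℝ,
    (∀ k : ℕ, Tendsto (fun n : ℕ => (gk k n : ℝ) / n) atTop (𝓝 (c k))) ∧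
    (∀ᶠ k : ℕ in atTop, c k < 1 ∧
      (∀ y : ℝ, 2 ≤ y → Real.log k * Real.log y / Real.log 2 - LL y ≤
        -Real.log (1 - c k) + Real.log k ^ (9 / 10 : ℝ)) ∧
      ∃ y : ℝ, 2 ≤ y ∧ -Real.log (1 - c k) ≤
        Real.log k * Real.log y / Real.log 2 - LL y + Real.log k ^ (9 / 10 : ℝ)) ∧
    Tendsto (fun k : ℕ => -Real.log (1 - c k) * (Real.log 2 / Real.log k) -
      (Real.log (Real.log k) + Real.log (Real.log (Real.log k)))) atTop
      (𝓝 (-(1 + Real.log (1 + Real.pi / 2) + Real.log (Real.log 2)))) := by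
  obtain ⟨c, hc, h1, h2⟩ := large_k_sharp
  refine ⟨c, hc, ?_, h2⟩
  filter_upwards [h1, low4, up4] with k a1 a2 a3
  exact ⟨a1, a2 (c k) a1 (hc k), a3 (c k) (hc k)⟩

end Pool.Agent.H96.LK4
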