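import Pool.Agent.H96.LK4.SumF

/-!
# LK4 Ivt: choice of `y`

`X = L^(5/4)` fixed.  `y ↦ HH y X` is continuous on `y > 1` (`rr`, `tt`, `ff` are given by closed
formulas in `y`).  At `y = L`: `HH ≤ log 2 * ∑ ff ≤ 85 L/log L < L ≤ M` (`sum_ff_le`).  At
`y = L (log L)^2 ≤ X`: `HH ≥ log 2 * π(y)` (the terms `p ≤ y`, `ff = 1`, `rr = 1/2`) and
`π(y) ≥ c y / log y` (Chebyshev), so `HH ≥ 2 L ≥ M`.  Intermediate value theorem.
-/

set_option autoImplicit false

namespace Pool.Agent.H96.LK4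

open Finset Filter Topology Pool.Agent.H96.KMF Pool.Agent.H96.LK3

private lemma Ivt_sg_pos {y : ℝ} (hy : 1 < y) : 0 < sg y :=
  div_pos (Real.log_pos (by norm_num)) (Real.log_pos hy)

private lemma Ivt_cont_sg : ContinuousOn sg (Set.Ioi 1) := by
  unfold sg
  refine ContinuousOn.div continuousOn_const ?_ ?_
  · refine Real.continuousOn_log.mono ?_
    intro y hy
    have h1 : (1 : ℝ) < y := hy
    have h2 : y ≠ 0 := by linarith
    simpa using h2
  · intro y hy
    exact (Real.log_pos hy).ne'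

private lemma Ivt_cont_rr {p : ℕ} (hp : 1 ≤ p) : ContinuousOn (fun y => rr y p) (Set.Ioi 1) := by
  unfold rr
  have h0 : (0 : ℝ) < p := by exact_mod_cast hp
  refine ContinuousOn.sup continuousOn_const ?_
  refine ContinuousOn.sub continuousOn_const ?_
  exact ContinuousOn.rpow continuousOn_const Ivt_cont_sg.neg (fun y _ => Or.inl h0.ne')

private lemma Ivt_cont_tt {p : ℕ} (hp : 1 ≤ p) : ContinuousOn (fun y => tt y p) (Set.Ioi 1) := by
  unfold tt
  have hr := Ivt_cont_rr hp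
  have hb : ∀ y ∈ Set.Ioi (1 : ℝ), 1 / 2 ≤ rr y p ∧ rr y p < 1 := fun y hy => rr_bounds hy hp
  refine ContinuousOn.rpow ?_ ?_ ?_
  · refine ContinuousOn.div (continuousOn_const.sub hr) hr ?_
    intro y hy
    have := (hb y hy).1
    have : 0 < rr y p := by linarith
    exact this.ne'
  · exact ContinuousOn.div continuousOn_const Ivt_cont_sg (fun y hy => (Ivt_sg_pos hy).ne')
  · intro y hy
    left
    have h1 := (hb y hy).1
    have h2 := (hb y hy).2
    have : 0 < (1 - rr y p) / rr y p := div_pos (by linarith) (by linarith)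
    exact this.ne'

private lemma Ivt_tt_pos {y : ℝ} (hy : 1 < y) {p : ℕ} (hp : 1 ≤ p) : 0 < tt y p := by
  unfold tt
  obtain ⟨h1, h2⟩ := rr_bounds hy hp
  exact Real.rpow_pos_of_pos (div_pos (by linarith) (by linarith)) _

private lemma Ivt_cont_ff {p : ℕ} (hp : 1 ≤ p) : ContinuousOn (fun y => ff y p) (Set.Ioi 1) := by
  unfold ff
  refine ContinuousOn.div (Ivt_cont_tt hp) ?_ ?_
  · exact (continuousOn_const.add (Ivt_cont_tt hp)).mul (Ivt_cont_rr hp)
  · intro y hy
    have h1 := Ivt_tt_pos hy hp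
    have h2 := (rr_bounds (y := y) hy hp).1
    have : 0 < (1 + tt y p) * rr y p := mul_pos (by linarith) (by linarith)
    exact this.ne'

private lemma Ivt_PP_one {X : ℝ} {p : ℕ} (hp : p ∈ PP X) : 1 ≤ p := by
  unfold PP at hp
  exact (Nat.prime_of_mem_primesLE hp).one_le

private lemma Ivt_cont_HH (X : ℝ) : ContinuousOn (fun y => HH y X) (Set.Ioi 1) := by
  unfold HH
  refine continuousOn_finsetSum _ ?_
  intro p hp
  have h1 := Ivt_PP_one hp
  exact (Ivt_cont_ff h1).mul (Real.binEntropy_continuous.comp_continuousOn (Ivt_cont_rr h1))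

private lemma Ivt_upper {y X : ℝ} (hy : 1 < y) (hX : X ≤ y ^ 2) :
    HH y X ≤ Real.log 2 * (85 * (y / Real.log y)) := by
  have h1 := sum_ff_le hy hX
  have h2 : HH y X ≤ ∑ p ∈ PP X, ff y p * Real.log 2 := by
    unfold HH
    refine Finset.sum_le_sum ?_
    intro p hp
    exact mul_le_mul_of_nonneg_left Real.binEntropy_le_log_two
      (ff_bounds hy (Ivt_PP_one hp)).1.le
  rw [← Finset.sum_mul] at h2
  have h3 : 0 < Real.log 2 := Real.log_pos (by norm_num)
  calc HH y X ≤ (∑ p ∈ PP X, ff y p) * Real.log 2 := h2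
    _ ≤ (85 * (y / Real.log y)) * Real.log 2 := mul_le_mul_of_nonneg_right h1 h3.le
    _ = Real.log 2 * (85 * (y / Real.log y)) := by ring

private lemma Ivt_lower {y X : ℝ} (hy : 1 < y) (hX : y ≤ X) :
    Real.log 2 * (Nat.primeCounting ⌊y⌋₊ : ℝ) ≤ HH y X := by
  have hsub : PP y ⊆ PP X := by
    intro p hp
    unfold PP at hp ⊢
    rw [Nat.mem_primesLE] at hp ⊢
    exact ⟨hp.1.trans (Nat.floor_le_floor hX), hp.2⟩
  have h1 : ∑ p ∈ PP y, ff y p * Real.binEntropy (rr y p) ≤ HH y X := by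
    unfold HH
    refine Finset.sum_le_sum_of_subset_of_nonneg hsub ?_
    intro p hp _
    have h2 := rr_bounds hy (Ivt_PP_one hp)
    exact mul_nonneg (ff_bounds hy (Ivt_PP_one hp)).1.le
      (Real.binEntropy_nonneg (by linarith [h2.1]) h2.2.le)
  have h3 : ∑ p ∈ PP y, ff y p * Real.binEntropy (rr y p) = ∑ p ∈ PP y, Real.log 2 := by
    refine Finset.sum_congr rfl ?_
    intro p hp
    have h4 : (p : ℝ) ≤ y := by
      have h5 : p ≤ ⌊y⌋₊ := by
        unfold PP at hp
        exact (Nat.mem_primesLE.mp hp).1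
      exact (Nat.le_floor_iff (by linarith)).mp h5
    rw [ff_le hy (Ivt_PP_one hp) h4, rr_le hy (Ivt_PP_one hp) h4, one_mul,
      show (1 / 2 : ℝ) = 2⁻¹ by norm_num, Real.binEntropy_two_inv]
  rw [h3, Finset.sum_const, nsmul_eq_mul] at h1
  have h6 : (PP y).card = Nat.primeCounting ⌊y⌋₊ := by
    unfold PP
    exact Nat.primesLE_card_eq_primeCounting _
  rw [h6] at h1
  linarith

private lemma Ivt_pi {y : ℝ} (hy : 21 ≤ y) :
    y / 2 / Real.log y ≤ (Nat.primeCounting ⌊y⌋₊ : ℝ) := by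
  have h1 := Chebyshev.pi_ge' (x := y) (by linarith)
  have h2 : 0 < Real.log y := Real.log_pos (by linarith)
  refine le_trans ?_ h1
  apply div_le_div_of_nonneg_right _ h2.le
  have h3 : Real.log (y + 2) ≤ (y + 2) / 16 - 1 + 4 * Real.log 2 := by
    have e1 : Real.log (y + 2) = Real.log ((y + 2) / 16) + Real.log 16 := by
      rw [← Real.log_mul (by positivity) (by norm_num)]
      congr 1
      ring
    have e2 : Real.log 16 = 4 * Real.log 2 := by
      rw [show (16 : ℝ) = 2 ^ 4 by norm_num, Real.log_pow]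
      push_cast
      ring
    have e3 := Real.log_le_sub_one_of_pos (show 0 < (y + 2) / 16 by positivity)
    rw [e1, e2]
    linarith
  have h4 := Real.log_two_lt_d9
  have h5 := Real.log_two_gt_d9
  nlinarith

theorem exists_y : ∀ᶠ L : ℝ in atTop, ∀ M : ℝ, L ≤ M → M ≤ 2 * L →
    ∃ y : ℝ, L ≤ y ∧ y ≤ L * Real.log L ^ 2 ∧ HH y (L ^ (5 / 4 : ℝ)) = M := by
  have ev1 : ∀ᶠ L : ℝ in atTop, 60 ≤ Real.log L := Real.tendsto_log_atTop.eventually_ge_atTop 60
  have ev2 : ∀ᶠ L : ℝ in atTop, 21 ≤ L := eventually_ge_atTop 21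
  have ev3 : ∀ᶠ L : ℝ in atTop, ‖Real.log L‖ ≤ 1 * ‖L ^ (1 / 8 : ℝ)‖ :=
    (isLittleO_log_rpow_atTop (show (0 : ℝ) < 1 / 8 by norm_num)).bound one_pos
  filter_upwards [ev1, ev2, ev3] with L h1 h2 h3
  intro M hM1 hM2
  have hL0 : 0 < L := by linarith
  have hL1 : 1 < L := by linarith
  have hl2 : 0 < Real.log 2 := Real.log_pos (by norm_num)
  have g4 := Real.log_two_lt_d9
  have g5 := Real.log_two_gt_d9
  -- size of the right end point
  have h4 : Real.log L ≤ L ^ (1 / 8 : ℝ) := by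
    rw [one_mul, Real.norm_of_nonneg (by linarith),
      Real.norm_of_nonneg (Real.rpow_nonneg hL0.le _)] at h3
    exact h3
  have h5 : Real.log L ^ 2 ≤ L ^ (1 / 4 : ℝ) := by
    calc Real.log L ^ 2 ≤ (L ^ (1 / 8 : ℝ)) ^ 2 := by
          exact pow_le_pow_left₀ (by linarith) h4 2
      _ = L ^ (1 / 4 : ℝ) := by
          rw [← Real.rpow_natCast, ← Real.rpow_mul hL0.le]
          norm_num
  have h6 : L * Real.log L ^ 2 ≤ L ^ (5 / 4 : ℝ) := by
    calc L * Real.log L ^ 2 ≤ L * L ^ (1 / 4 : ℝ) := mul_le_mul_of_nonneg_left h5 hL0.le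
      _ = L ^ (1 : ℝ) * L ^ (1 / 4 : ℝ) := by rw [Real.rpow_one]
      _ = L ^ (5 / 4 : ℝ) := by
          rw [← Real.rpow_add hL0]
          norm_num
  have h7 : L ^ (5 / 4 : ℝ) ≤ L ^ 2 := by
    rw [← Real.rpow_natCast]
    exact Real.rpow_le_rpow_of_exponent_le hL1.le (by norm_num)
  set y1 : ℝ := L * Real.log L ^ 2 with hy1
  have h8 : L ≤ y1 := by
    have : 1 ≤ Real.log L ^ 2 := by nlinarith
    rw [hy1]
    nlinarith
  -- the left end point
  have hleft : HH L (L ^ (5 / 4 : ℝ)) ≤ M := by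
    refine (Ivt_upper hL1 h7).trans (le_trans ?_ hM1)
    have : Real.log 2 * (85 * (L / Real.log L)) = (85 * Real.log 2) * L / Real.log L := by ring
    rw [this, div_le_iff₀ (by linarith)]
    have : 85 * Real.log 2 ≤ Real.log L := by linarith
    nlinarith
  -- the right end point
  have hright : M ≤ HH y1 (L ^ (5 / 4 : ℝ)) := by
    refine hM2.trans (le_trans ?_ (Ivt_lower (by linarith) h6))
    have h9 := Ivt_pi (y := y1) (by linarith)
    have h10 : Real.log y1 ≤ 5 / 4 * Real.log L := by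
      have := Real.log_le_log (by linarith) h6
      rwa [Real.log_rpow hL0] at this
    have h11 : 0 < Real.log y1 := Real.log_pos (by linarith)
    have h12 : 2 / 5 * (L * Real.log L) ≤ y1 / 2 / Real.log y1 := by
      rw [le_div_iff₀ h11]
      calc 2 / 5 * (L * Real.log L) * Real.log y1
          ≤ 2 / 5 * (L * Real.log L) * (5 / 4 * Real.log L) := by
            apply mul_le_mul_of_nonneg_left h10
            have : 0 ≤ L * Real.log L := mul_nonneg hL0.le (by linarith)
            linarith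
        _ = y1 / 2 := by rw [hy1]; ring
    have h13 : 2 / 5 * (L * Real.log L) ≤ (Nat.primeCounting ⌊y1⌋₊ : ℝ) := h12.trans h9
    calc 2 * L ≤ Real.log 2 * (2 / 5 * (L * Real.log L)) := by
          have : 5 ≤ Real.log 2 * Real.log L := by nlinarith
          nlinarith
      _ ≤ Real.log 2 * (Nat.primeCounting ⌊y1⌋₊ : ℝ) := mul_le_mul_of_nonneg_left h13 hl2.le
  -- intermediate value
  have hcont : ContinuousOn (fun y => HH y (L ^ (5 / 4 : ℝ))) (Set.Icc L y1) :=
    (Ivt_cont_HH _).mono (fun y hy => lt_of_lt_of_le hL1 hy.1)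
  obtain ⟨y, hy, hyM⟩ := intermediate_value_Icc h8 hcont ⟨hleft, hright⟩
  exact ⟨y, hy.1, hy.2, hyM⟩

end Pool.Agent.H96.LK4
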