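import Pool.Agent.H96.LK4.Dual
import Pool.Agent.H96.KMF.ESum

/-!
# LK4 SumF: bounds for `ff` and its sum

`ff ≤ tt / rr ≤ 2 tt`, `tt = ww / p ≤ (y/p)^(3/2)` (`ww_region3` of KMF/EBound), `sum_c'` and
`pi_le_five` of KMF/ESum.
-/

set_option autoImplicit false

namespace Pool.Agent.H96.LK4

open Finset Filter Topology Pool.Agent.H96.KMF Pool.Agent.H96.LK3

private theorem SumF_one_lt {y : ℝ} (hy : 1 < y) {p : ℕ} (h : y < (p : ℝ)) : 1 < p := by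
  have : (1 : ℝ) < (p : ℝ) := hy.trans h
  exact_mod_cast this

theorem tt_small {y : ℝ} (hy : 1 < y) {p : ℕ} (h : y < (p : ℝ)) (h2 : (p : ℝ) ≤ y ^ 2) :
    tt y p ≤ (y / p) ^ (3 / 2 : ℝ) := by
  have hp := SumF_one_lt hy h
  have hpr : (0 : ℝ) < p := by linarith
  have h1 := ww_region3 hy hp h.le h2
  rw [tt_gt hy h, sg, div_le_iff₀ hpr, Real.div_rpow (by linarith) hpr.le]
  have e1 : y ^ (3 / 2 : ℝ) / (p : ℝ) ^ (3 / 2 : ℝ) * p =
      y ^ (3 / 2 : ℝ) * (p : ℝ) ^ (-(1 / 2) : ℝ) := by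
    rw [div_mul_eq_mul_div, div_eq_iff (by positivity), mul_assoc, ← Real.rpow_add hpr]
    norm_num
  rw [e1]
  exact h1

theorem ff_small {y : ℝ} (hy : 1 < y) {p : ℕ} (h : y < (p : ℝ)) (h2 : (p : ℝ) ≤ y ^ 2) :
    ff y p ≤ 2 * (y / p) ^ (3 / 2 : ℝ) := by
  have hp := SumF_one_lt hy h
  obtain ⟨r1, r2⟩ := rr_bounds hy hp.le
  have ht : 0 ≤ tt y p := by
    unfold tt
    exact Real.rpow_nonneg (div_nonneg (by linarith) (by linarith)) _
  have h3 : ff y p ≤ 2 * tt y p := by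
    unfold ff
    rw [div_le_iff₀ (by positivity)]
    have h4 : 1 / 2 ≤ (1 + tt y p) * rr y p := by nlinarith
    nlinarith
  have h5 := tt_small hy h h2
  linarith

theorem sum_ff_le {y X : ℝ} (hy : 1 < y) (hX : X ≤ y ^ 2) :
    ∑ p ∈ PP X, ff y p ≤ 85 * (y / Real.log y) := by
  have hsub : PP X ⊆ Nat.primesBelow (⌊X⌋₊ + 1) := by
    intro p hp
    rw [PP, Nat.mem_primesLE] at hp
    rw [Nat.mem_primesBelow]
    exact ⟨by omega, hp.2⟩
  have h1 : ∑ p ∈ PP X, ff y p ≤ ∑ p ∈ PP X, ((if (p : ℝ) ≤ y then (1 : ℝ) else 0) +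
      2 * (if y < (p : ℝ) ∧ (p : ℝ) ≤ y ^ 2 then (y / p) ^ (3 / 2 : ℝ) else 0)) := by
    refine Finset.sum_le_sum fun p hp => ?_
    rw [PP, Nat.mem_primesLE] at hp
    have hpX : (p : ℝ) ≤ X := (Nat.le_floor_iff' hp.2.ne_zero).1 hp.1
    by_cases c : (p : ℝ) ≤ y
    · rw [ff_le hy hp.2.one_lt.le c, if_pos c, if_neg (by intro h; linarith [h.1])]
      linarith
    · push Not at c
      rw [if_neg (by linarith), if_pos ⟨c, hpX.trans hX⟩, zero_add]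
      exact ff_small hy c (hpX.trans hX)
  have h2 : ∑ p ∈ PP X, ((if (p : ℝ) ≤ y then (1 : ℝ) else 0) +
      2 * (if y < (p : ℝ) ∧ (p : ℝ) ≤ y ^ 2 then (y / p) ^ (3 / 2 : ℝ) else 0)) ≤
      ∑ p ∈ Nat.primesBelow (⌊X⌋₊ + 1), ((if (p : ℝ) ≤ y then (1 : ℝ) else 0) +
      2 * (if y < (p : ℝ) ∧ (p : ℝ) ≤ y ^ 2 then (y / p) ^ (3 / 2 : ℝ) else 0)) := by
    refine Finset.sum_le_sum_of_subset_of_nonneg hsub fun p _ _ => ?_
    have a1 : (0 : ℝ) ≤ if (p : ℝ) ≤ y then (1 : ℝ) else 0 := by split_ifs <;> norm_num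
    have a2 : (0 : ℝ) ≤ if y < (p : ℝ) ∧ (p : ℝ) ≤ y ^ 2 then (y / p) ^ (3 / 2 : ℝ) else 0 := by
      split_ifs
      · positivity
      · exact le_rfl
    linarith
  refine (h1.trans h2).trans ?_
  rw [Finset.sum_add_distrib, ← Finset.mul_sum]
  have h3 := sum_c' hy ⌊X⌋₊
  have h4 : ∑ p ∈ Nat.primesBelow (⌊X⌋₊ + 1), (if (p : ℝ) ≤ y then (1 : ℝ) else 0) ≤
      5 * y / Real.log y := by
    rw [← Finset.sum_filter, Finset.sum_const, nsmul_eq_mul, mul_one]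
    exact (card_primes_le ⌊X⌋₊ y).trans (pi_le_five hy)
  have e : 85 * (y / Real.log y) = 5 * y / Real.log y + 2 * (40 * y / Real.log y) := by ring
  rw [e]
  linarith

end Pool.Agent.H96.LK4
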