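import Pool.Agent.H96.LK4.Defs
import Pool.Agent.H96.KMF.ESum

/-!
# LK4 TailX: the infinite sum `LL`

For `p > y`: `lw y p ≤ bb y p` (`factor_le` of KMF/EBound), that is
`lw ≤ (if p ≤ y^2 then (y/p)^(3/2) else 0) + 2 log y sqrt y p^(-1-σ)`.  With `X = K y` the sum over
`p > X` of the first part is at most `K^(-3/2) * 40 (K y)/log (K y)` (`sum_c'` for `K y`, as in the
proof of `EQB_total` in LK3/EQB), of the second part at most `3 (log y)^2 sqrt y` (`sum_d`).  The
partial sums are bounded and the terms nonnegative.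
-/

set_option autoImplicit false

namespace Pool.Agent.H96.LK4

open Finset Filter Topology Pool.Agent.H96.KMF Pool.Agent.H96.LK3

theorem lw_nonneg {y : ℝ} (hy : 1 < y) {p : ℕ} (hp : 1 < p) : 0 ≤ lw y p := by
  have hΛ : 0 < Real.log y := Real.log_pos hy
  have hl2 : 0 < Real.log 2 := Real.log_pos (by norm_num)
  have hσ : 0 < sg y := by unfold sg; positivity
  have hpr : (1 : ℝ) < p := by exact_mod_cast hp
  unfold lw
  split_ifs with h
  · apply Real.log_nonneg
    rw [le_div_iff₀ (by linarith)]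
    linarith
  · apply Real.log_nonneg
    have h1 := ww_one_le hσ hp
    have h2 : 0 ≤ (ww (sg y) p - 1) / p := div_nonneg (by linarith) (by linarith)
    linarith

theorem LL_nonneg {y : ℝ} (hy : 1 < y) : 0 ≤ LL y := by
  unfold LL
  apply tsum_nonneg
  intro p
  split_ifs with h
  · exact lw_nonneg hy h.one_lt
  · exact le_rfl

private lemma TailX_term {y X : ℝ} (hy : Real.exp 1 ≤ y) (hX : y ≤ X) {p : ℕ} (hp : 1 < p)
    (hpX : X < p) :
    lw y p ≤ (y / X) ^ (3 / 2 : ℝ) *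
      (if X < (p : ℝ) ∧ (p : ℝ) ≤ X ^ 2 then (X / p) ^ (3 / 2 : ℝ) else 0) +
      2 * Real.log y * Real.sqrt y * (p : ℝ) ^ (-1 - (Real.log 2 / Real.log y)) := by
  have hy1 : 1 < y := lt_of_lt_of_le (by
    have := Real.add_one_lt_exp (one_ne_zero); linarith) hy
  have hy0 : 0 < y := by linarith
  have hX0 : 0 < X := by linarith
  have hΛ : 0 < Real.log y := Real.log_pos hy1
  have hl2 : 0 < Real.log 2 := Real.log_pos (by norm_num)
  have hσ : 0 < Real.log 2 / Real.log y := by positivity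
  have hpr : (0 : ℝ) < p := by linarith
  have h1 := factor_le hy hp
  have hw := ww_one_le hσ hp
  have h2 : 0 ≤ (ww (Real.log 2 / Real.log y) p - 1) / p := div_nonneg (by linarith) hpr.le
  have h3 : lw y p ≤ bb y p := by
    unfold lw sg
    rw [if_neg (by linarith)]
    rw [Real.log_le_iff_le_exp (by linarith)]
    exact h1
  refine h3.trans ?_
  unfold bb
  rw [if_neg (by nlinarith), if_neg (by linarith : ¬ (p : ℝ) ≤ y)]
  have e0 : (y / X) ^ (3 / 2 : ℝ) * (X / p) ^ (3 / 2 : ℝ) = (y / p) ^ (3 / 2 : ℝ) := by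
    rw [← Real.mul_rpow (by positivity) (by positivity)]
    congr 1
    field_simp
  have e1 : (if y < (p : ℝ) ∧ (p : ℝ) ≤ y ^ 2 then (y / p) ^ (3 / 2 : ℝ) else 0) ≤
      (y / X) ^ (3 / 2 : ℝ) * (if X < (p : ℝ) ∧ (p : ℝ) ≤ X ^ 2 then
        (X / p) ^ (3 / 2 : ℝ) else 0) := by
    split_ifs with a b b
    · rw [e0]
    · exfalso
      apply b
      refine ⟨hpX, a.2.trans ?_⟩
      exact pow_le_pow_left₀ hy0.le hX 2
    · positivity
    · simp
  linarith

private lemma TailX_mem {X : ℝ} (hX : 0 ≤ X) {p : ℕ} : p ∈ PP X ↔ (p : ℝ) ≤ X ∧ p.Prime := by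
  rw [PP, Nat.mem_primesLE, Nat.le_floor_iff hX]

private lemma TailX_tail {y X : ℝ} (hy : Real.exp 1 ≤ y) (hX : y ≤ X) (z : ℕ) :
    ∑ p ∈ (Nat.primesBelow (z + 1)).filter (fun p : ℕ => X < (p : ℝ)), lw y p ≤
      40 * Real.sqrt (y / X) * (y / Real.log y) + 3 * Real.log y ^ 2 * Real.sqrt y := by
  have hy1 : 1 < y := lt_of_lt_of_le (by
    have := Real.add_one_lt_exp (one_ne_zero); linarith) hy
  have hy0 : 0 < y := by linarith
  have hX0 : 0 < X := by linarith
  have hX1 : 1 < X := by linarith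
  have hΛ : 0 < Real.log y := Real.log_pos hy1
  have hΛX : Real.log y ≤ Real.log X := Real.log_le_log hy0 hX
  have h1 : ∑ p ∈ (Nat.primesBelow (z + 1)).filter (fun p : ℕ => X < (p : ℝ)), lw y p ≤
      ∑ p ∈ Nat.primesBelow (z + 1), ((y / X) ^ (3 / 2 : ℝ) *
        (if X < (p : ℝ) ∧ (p : ℝ) ≤ X ^ 2 then (X / p) ^ (3 / 2 : ℝ) else 0) +
        2 * Real.log y * Real.sqrt y * (p : ℝ) ^ (-1 - (Real.log 2 / Real.log y))) := by
    rw [Finset.sum_filter]
    apply Finset.sum_le_sum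
    intro p hp
    split_ifs with a b b
    · have := TailX_term hy hX (Nat.prime_of_mem_primesBelow hp).one_lt a
      rwa [if_pos b] at this
    · have := TailX_term hy hX (Nat.prime_of_mem_primesBelow hp).one_lt a
      rwa [if_neg b] at this
    · positivity
    · positivity
  refine h1.trans ?_
  rw [Finset.sum_add_distrib, ← Finset.mul_sum]
  have h2 := mul_le_mul_of_nonneg_left (sum_c' hX1 z)
    (by positivity : 0 ≤ (y / X) ^ (3 / 2 : ℝ))
  have h3 := sum_d hy1 z
  have h4 : (y / X) ^ (3 / 2 : ℝ) * (40 * X / Real.log X) ≤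
      40 * Real.sqrt (y / X) * (y / Real.log y) := by
    have a1 : 40 * X / Real.log X ≤ 40 * X / Real.log y :=
      div_le_div_of_nonneg_left (by positivity) hΛ hΛX
    refine (mul_le_mul_of_nonneg_left a1 (by positivity)).trans ?_
    have a2 : (y / X) ^ (3 / 2 : ℝ) = Real.sqrt (y / X) * (y / X) := by
      rw [Real.sqrt_eq_rpow]
      nth_rewrite 3 [← Real.rpow_one (y / X)]
      rw [← Real.rpow_add (by positivity)]
      norm_num
    rw [a2]
    apply le_of_eq
    field_simp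
  linarith

private lemma TailX_partial {y X : ℝ} (hy : Real.exp 1 ≤ y) (hX : y ≤ X) (T : Finset ℕ) :
    ∑ p ∈ T, (if p.Prime then lw y p else 0) ≤ ∑ p ∈ PP X, lw y p +
      (40 * Real.sqrt (y / X) * (y / Real.log y) + 3 * Real.log y ^ 2 * Real.sqrt y) := by
  have hy1 : 1 < y := lt_of_lt_of_le (by
    have := Real.add_one_lt_exp (one_ne_zero); linarith) hy
  have hX0 : 0 ≤ X := by linarith
  set z := T.sup id with hz
  have hle : ∀ p ∈ T, p ≤ z := fun p hp => Finset.le_sup (f := id) hp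
  rw [← Finset.sum_filter]
  have hsub : T.filter Nat.Prime ⊆ PP X ∪
      (Nat.primesBelow (z + 1)).filter (fun p : ℕ => X < (p : ℝ)) := by
    intro p hp
    rw [Finset.mem_filter] at hp
    rw [Finset.mem_union, TailX_mem hX0, Finset.mem_filter, Nat.mem_primesBelow]
    by_cases h : (p : ℝ) ≤ X
    · exact Or.inl ⟨h, hp.2⟩
    · push Not at h
      exact Or.inr ⟨⟨by have := hle p hp.1; omega, hp.2⟩, h⟩
  have hpos : ∀ p ∈ PP X ∪ (Nat.primesBelow (z + 1)).filter (fun p : ℕ => X < (p : ℝ)),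
      0 ≤ lw y p := by
    intro p hp
    rw [Finset.mem_union, TailX_mem hX0, Finset.mem_filter, Nat.mem_primesBelow] at hp
    rcases hp with hp | hp
    · exact lw_nonneg hy1 hp.2.one_lt
    · exact lw_nonneg hy1 hp.1.2.one_lt
  refine (Finset.sum_le_sum_of_subset_of_nonneg hsub (fun p hp _ => hpos p hp)).trans ?_
  have h1 : ∑ p ∈ PP X ∪ (Nat.primesBelow (z + 1)).filter (fun p : ℕ => X < (p : ℝ)), lw y p +
      ∑ p ∈ PP X ∩ (Nat.primesBelow (z + 1)).filter (fun p : ℕ => X < (p : ℝ)), lw y p =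
      ∑ p ∈ PP X, lw y p +
        ∑ p ∈ (Nat.primesBelow (z + 1)).filter (fun p : ℕ => X < (p : ℝ)), lw y p :=
    Finset.sum_union_inter
  have h2 : 0 ≤ ∑ p ∈ PP X ∩ (Nat.primesBelow (z + 1)).filter (fun p : ℕ => X < (p : ℝ)),
      lw y p := by
    apply Finset.sum_nonneg
    intro p hp
    exact hpos p (Finset.mem_union_left _ (Finset.mem_inter.1 hp).1)
  have h3 := TailX_tail hy hX z
  linarith

private lemma TailX_term_nonneg {y : ℝ} (hy : Real.exp 1 ≤ y) (p : ℕ) :
    0 ≤ (if p.Prime then lw y p else 0) := by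
  have hy1 : 1 < y := lt_of_lt_of_le (by
    have := Real.add_one_lt_exp (one_ne_zero); linarith) hy
  split_ifs with h
  · exact lw_nonneg hy1 h.one_lt
  · exact le_rfl

theorem lw_summable {y : ℝ} (hy : Real.exp 1 ≤ y) :
    Summable (fun p : ℕ => if p.Prime then lw y p else 0) :=
  summable_of_sum_le (TailX_term_nonneg hy) (TailX_partial hy le_rfl)

theorem sum_le_LL {y : ℝ} (hy : Real.exp 1 ≤ y) (T : Finset ℕ) (hT : ∀ p ∈ T, p.Prime) :
    ∑ p ∈ T, lw y p ≤ LL y := by
  have h1 : ∑ p ∈ T, lw y p = ∑ p ∈ T, (if p.Prime then lw y p else 0) := by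
    refine Finset.sum_congr rfl fun p hp => ?_
    rw [if_pos (hT p hp)]
  rw [h1]
  exact (lw_summable hy).sum_le_tsum T (fun p _ => TailX_term_nonneg hy p)

theorem LL_le {y X : ℝ} (hy : Real.exp 1 ≤ y) (hX : y ≤ X) :
    LL y ≤ ∑ p ∈ PP X, lw y p + (40 * Real.sqrt (y / X) * (y / Real.log y) +
      3 * Real.log y ^ 2 * Real.sqrt y) := by
  unfold LL
  exact (lw_summable hy).tsum_le_of_sum_le (TailX_partial hy hX)

end Pool.Agent.H96.LK4
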