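import Pool.Agent.H96.LK4.UpDet
import Pool.Agent.H96.LK4.Ent2
import Pool.Agent.H96.LK4.Ivt
import Pool.Agent.H96.LK4.TailX

/-!
# LK4 Up: the upper bound for `-log (1 - c_k)`

`L = log k`, `w = L^(3/5)`, `M = L + w`, `X = L^(5/4)`, `y` from `exists_y`, `δ1 = δ2 = L^(7/10)`.
-/

set_option autoImplicit false

namespace Pool.Agent.H96.LK4

open Finset Filter Topology Pool.Agent.H96.KMF Pool.Agent.H96.LK3

lemma up_L : ∀ᶠ L : ℝ in atTop, ∀ k : ℕ, Real.log k = L → ∀ c : ℝ,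
    Tendsto (fun n : ℕ => (gk k n : ℝ) / n) atTop (𝓝 c) → ∃ y : ℝ, 2 ≤ y ∧
    -Real.log (1 - c) ≤ L * Real.log y / Real.log 2 - LL y + L ^ (9 / 10 : ℝ) := by
  have hl2 : 0 < Real.log 2 := Real.log_pos (by norm_num)
  have hl2a := Real.log_two_gt_d9
  have hl2b := Real.log_two_lt_d9
  -- the analytic facts
  have hid : Tendsto (fun L : ℝ => L) atTop atTop := tendsto_id
  have hent : ∀ᶠ L : ℝ in atTop, ∀ y : ℝ, L ≤ y → ∀ X : ℝ, y ^ (11 / 10 : ℝ) ≤ X →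
      X ≤ y ^ (5 / 4 : ℝ) → ∑ p ∈ PP X, Real.binEntropy (ff y p * rr y p) ≤
        ∑ p ∈ PP X, Real.binEntropy (ff y p) := by
    obtain ⟨Y, hY⟩ := eventually_atTop.1 ent2
    filter_upwards [eventually_ge_atTop Y] with L hL y hy X h1 h2
    exact hY y (hL.trans hy) X h1 h2
  -- `log L ^ n ≤ L ^ s`
  have hlog : ∀ (n : ℕ) (s : ℝ), 0 < s → ∀ᶠ L : ℝ in atTop, 1000 * Real.log L ^ n ≤ L ^ s := by
    intro n s hs
    have h1 := (isLittleO_log_rpow_rpow_atTop (n : ℝ) hs).bound (by norm_num : (0 : ℝ) < 1 / 1000)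
    filter_upwards [h1, eventually_ge_atTop (1 : ℝ)] with L h hL
    have h0 : 0 ≤ Real.log L := Real.log_nonneg hL
    rw [Real.norm_eq_abs, Real.norm_eq_abs, abs_of_nonneg (by positivity),
      abs_of_nonneg (by positivity), Real.rpow_natCast] at h
    linarith
  have hbig : ∀ (s : ℝ), 0 < s → ∀ᶠ L : ℝ in atTop, 1000 ≤ L ^ s := fun s hs =>
    (tendsto_rpow_atTop hs).eventually_ge_atTop 1000
  filter_upwards [exists_y, hent, hlog 1 (1 / 100) (by norm_num), hlog 2 (1 / 100) (by norm_num),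
    hlog 4 (1 / 100) (by norm_num), hlog 3 (1 / 100) (by norm_num), hbig (1 / 100) (by norm_num),
    eventually_ge_atTop (Real.exp 1000), eventually_ge_atTop (1000 : ℝ)] with
    L hex hent l1 l2 l4 l3 b1 hLe hL1000 k hk c hc
  have hL0 : 0 < L := by linarith
  have hL1 : 1 ≤ L := by linarith
  have hmono : ∀ a b : ℝ, a ≤ b → L ^ a ≤ L ^ b := fun a b h =>
    Real.rpow_le_rpow_of_exponent_le hL1 h
  have hadd : ∀ a b : ℝ, L ^ a * L ^ b = L ^ (a + b) := fun a b => (Real.rpow_add hL0 a b).symm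
  have hone : ∀ a : ℝ, a ≤ 0 → L ^ a ≤ 1 := fun a h => by
    have := hmono a 0 h; rwa [Real.rpow_zero] at this
  set V := L ^ (1 / 100 : ℝ) with hV
  have hLL : L ^ (1 : ℝ) = L := Real.rpow_one L
  have hlogL : 1000 ≤ Real.log L := by
    rw [Real.le_log_iff_exp_le hL0]; exact hLe
  rw [pow_one] at l1
  have hlogV : Real.log L ≤ V / 1000 := by linarith
  have hlog2V : Real.log L ^ 2 ≤ V / 1000 := by linarith
  have hw1 : L ^ (3 / 5 : ℝ) ≤ L := by
    have := hmono (3 / 5) 1 (by norm_num); rwa [hLL] at this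
  have hw0 : 0 < L ^ (3 / 5 : ℝ) := Real.rpow_pos_of_pos hL0 _
  obtain ⟨y, hy1, hy2, hM⟩ := hex (L + L ^ (3 / 5 : ℝ)) (by linarith) (by linarith)
  have hy0 : 0 < y := by linarith
  have hy1' : 1 < y := by linarith
  set X := L ^ (5 / 4 : ℝ) with hX
  have hX0 : 0 < X := Real.rpow_pos_of_pos hL0 _
  have hLX : L ≤ X := by
    have := hmono 1 (5 / 4) (by norm_num); rwa [hLL] at this
  have hX2 : 2 ≤ X := by linarith
  have hyV : y ≤ L ^ (101 / 100 : ℝ) := by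
    have e1 : L * V = L ^ (101 / 100 : ℝ) := by
      nth_rewrite 1 [← hLL]
      rw [hV, hadd]
      norm_num
    rw [← e1]
    refine hy2.trans (mul_le_mul_of_nonneg_left ?_ hL0.le)
    linarith
  have hXy : X ≤ y ^ (5 / 4 : ℝ) := Real.rpow_le_rpow hL0.le hy1 (by norm_num)
  have hyX : y ^ (11 / 10 : ℝ) ≤ X := by
    calc y ^ (11 / 10 : ℝ) ≤ (L ^ (101 / 100 : ℝ)) ^ (11 / 10 : ℝ) :=
          Real.rpow_le_rpow hy0.le hyV (by norm_num)
      _ = L ^ (1111 / 1000 : ℝ) := by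
          rw [← Real.rpow_mul hL0.le]; norm_num
      _ ≤ X := hmono _ _ (by norm_num)
  have hyX' : y ≤ X := hyV.trans (hmono _ _ (by norm_num))
  have hlogX : Real.log X = 5 / 4 * Real.log L := by rw [hX, Real.log_rpow hL0]
  have hlogy1 : Real.log L ≤ Real.log y := Real.log_le_log hL0 hy1
  have hlogy2 : Real.log y ≤ 101 / 100 * Real.log L := by
    have := Real.log_le_log hy0 hyV
    rwa [Real.log_rpow hL0] at this
  have hlogy0 : 0 < Real.log y := by linarith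
  have hee : Real.exp 1 ≤ y := by
    have := Real.exp_one_lt_d9
    linarith
  have hk1 : 1 ≤ k := by
    rcases Nat.eq_zero_or_pos k with h | h
    · rw [h] at hk; simp at hk; linarith
    · exact h
  have hkr : (0 : ℝ) < k := by exact_mod_cast hk1
  have hl8 : Real.log 8 ≤ 3 := by
    rw [show (8 : ℝ) = 2 ^ 3 by norm_num, Real.log_pow]; push_cast; linarith
  -- the sum of `ff`
  have hff : ∑ p ∈ PP X, ff y p ≤ 85 * L ^ (101 / 100 : ℝ) := by
    refine (sum_ff_le hy1' (X := X) ?_).trans ?_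
    · refine hXy.trans ?_
      calc y ^ (5 / 4 : ℝ) ≤ y ^ (2 : ℝ) :=
            Real.rpow_le_rpow_of_exponent_le hy1'.le (by norm_num)
        _ = y ^ 2 := by norm_num
    · have : y / Real.log y ≤ y := div_le_self hy0.le (by linarith)
      linarith
  -- cardinality
  have hcard : ((PP X).card : ℝ) ≤ X := by
    have e1 := pi_le_five (x := X) (by linarith)
    have e2 : ((PP X).card : ℝ) = Nat.primeCounting ⌊X⌋₊ := by
      unfold PP; rw [Nat.primesLE_card_eq_primeCounting]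
    rw [e2]
    refine e1.trans ?_
    rw [hlogX, div_le_iff₀ (by linarith)]
    calc 5 * X ≤ (5 / 4 * Real.log L) * X := mul_le_mul_of_nonneg_right (by linarith) hX0.le
      _ = _ := by ring
  -- the parameters
  have hδ0 : 0 < L ^ (7 / 10 : ℝ) := Real.rpow_pos_of_pos hL0 _
  have h1 : L ^ (-(1 / 2) : ℝ) * Real.log (8 * k) -
      (L ^ (-(1 / 2) : ℝ) - (L ^ (-(1 / 2) : ℝ)) ^ 2 / 2) * (L + L ^ (3 / 5 : ℝ)) ≤ -3 := by
    rw [Real.log_mul (by norm_num) hkr.ne', hk]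
    have e0 : 0 < L ^ (-(1 / 2) : ℝ) := Real.rpow_pos_of_pos hL0 _
    have e1 : L ^ (-(1 / 2) : ℝ) ≤ 1 := hone _ (by norm_num)
    have e2 : (L ^ (-(1 / 2) : ℝ)) ^ 2 * L = 1 := by
      rw [← Real.rpow_natCast, ← Real.rpow_mul hL0.le]
      nth_rewrite 2 [← hLL]
      rw [hadd]
      norm_num
    have e3 : L ^ (-(1 / 2) : ℝ) * L ^ (3 / 5 : ℝ) = L ^ (1 / 10 : ℝ) := by
      rw [hadd]; norm_num
    have e4 : 1000 ≤ L ^ (1 / 10 : ℝ) := b1.trans (hmono _ _ (by norm_num))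
    have e5 : (L ^ (-(1 / 2) : ℝ)) ^ 2 * L ^ (3 / 5 : ℝ) ≤ 1 :=
      (mul_le_mul_of_nonneg_left hw1 (by positivity)).trans e2.le
    have e6 : L ^ (-(1 / 2) : ℝ) * Real.log 8 ≤ 1 * 3 :=
      mul_le_mul e1 hl8 (Real.log_nonneg (by norm_num)) (by norm_num)
    have e7 : L ^ (-(1 / 2) : ℝ) * (Real.log 8 + L) -
        (L ^ (-(1 / 2) : ℝ) - (L ^ (-(1 / 2) : ℝ)) ^ 2 / 2) * (L + L ^ (3 / 5 : ℝ)) =
        L ^ (-(1 / 2) : ℝ) * Real.log 8 - L ^ (-(1 / 2) : ℝ) * L ^ (3 / 5 : ℝ) +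
        ((L ^ (-(1 / 2) : ℝ)) ^ 2 * L + (L ^ (-(1 / 2) : ℝ)) ^ 2 * L ^ (3 / 5 : ℝ)) / 2 := by ring
    rw [e7, e2, e3]
    linarith
  have h2' : L ^ (-(3 / 5) : ℝ) * Real.log X ≤ 1 := by
    rw [hlogX]
    have e1 : L ^ (-(3 / 5) : ℝ) * V ≤ 1 := by
      rw [hV, hadd]; exact hone _ (by norm_num)
    have e0 : 0 < L ^ (-(3 / 5) : ℝ) := Real.rpow_pos_of_pos hL0 _
    calc L ^ (-(3 / 5) : ℝ) * (5 / 4 * Real.log L) ≤ L ^ (-(3 / 5) : ℝ) * V :=
          mul_le_mul_of_nonneg_left (by linarith) e0.le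
      _ ≤ 1 := e1
  have h2 : -L ^ (-(3 / 5) : ℝ) * L ^ (7 / 10 : ℝ) +
      (L ^ (-(3 / 5) : ℝ)) ^ 2 * Real.log X ^ 2 * ∑ p ∈ PP X, ff y p ≤ -3 := by
    have e1 : L ^ (-(3 / 5) : ℝ) * L ^ (7 / 10 : ℝ) = L ^ (1 / 10 : ℝ) := by
      rw [hadd]; norm_num
    have e2 : (L ^ (-(3 / 5) : ℝ)) ^ 2 = L ^ (-(6 / 5) : ℝ) := by
      rw [← Real.rpow_natCast, ← Real.rpow_mul hL0.le]; norm_num
    have e3 : Real.log X ^ 2 ≤ V / 100 := by
      rw [hlogX, mul_pow]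
      linarith
    have e0 : 0 < L ^ (-(6 / 5) : ℝ) := Real.rpow_pos_of_pos hL0 _
    have e4 : L ^ (-(6 / 5) : ℝ) * Real.log X ^ 2 * ∑ p ∈ PP X, ff y p ≤
        L ^ (-(6 / 5) : ℝ) * (V / 100) * (85 * L ^ (101 / 100 : ℝ)) :=
      mul_le_mul (mul_le_mul_of_nonneg_left e3 e0.le) hff
        (Finset.sum_nonneg fun p hp => (ff_bounds hy1' (mem_PP.mp hp).2.one_lt.le).1.le)
        (by positivity)
    have e5 : L ^ (-(6 / 5) : ℝ) * (V / 100) * (85 * L ^ (101 / 100 : ℝ)) =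
        85 / 100 * L ^ (-(18 / 100) : ℝ) := by
      have : L ^ (-(6 / 5) : ℝ) * V * L ^ (101 / 100 : ℝ) = L ^ (-(18 / 100) : ℝ) := by
        rw [hV, hadd, hadd]; norm_num
      linear_combination (85 / 100) * this
    have e6 : L ^ (-(18 / 100) : ℝ) ≤ 1 := hone _ (by norm_num)
    have e7 : 1000 ≤ L ^ (1 / 10 : ℝ) := b1.trans (hmono _ _ (by norm_num))
    rw [e2, neg_mul, e1]
    linarith
  have h6 : -L ^ (-(13 / 20) : ℝ) * L ^ (7 / 10 : ℝ) +
      (L ^ (-(13 / 20) : ℝ)) ^ 2 * ((PP X).card : ℝ) ≤ -3 := by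
    have e1 : L ^ (-(13 / 20) : ℝ) * L ^ (7 / 10 : ℝ) = L ^ (1 / 20 : ℝ) := by
      rw [hadd]; norm_num
    have e2 : (L ^ (-(13 / 20) : ℝ)) ^ 2 = L ^ (-(13 / 10) : ℝ) := by
      rw [← Real.rpow_natCast, ← Real.rpow_mul hL0.le]; norm_num
    have e0 : 0 < L ^ (-(13 / 10) : ℝ) := Real.rpow_pos_of_pos hL0 _
    have e3 : L ^ (-(13 / 10) : ℝ) * ((PP X).card : ℝ) ≤ 1 := by
      calc L ^ (-(13 / 10) : ℝ) * ((PP X).card : ℝ) ≤ L ^ (-(13 / 10) : ℝ) * X :=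
            mul_le_mul_of_nonneg_left hcard e0.le
        _ ≤ 1 := by rw [hX, hadd]; exact hone _ (by norm_num)
    have e4 : 1000 ≤ L ^ (1 / 20 : ℝ) := b1.trans (hmono _ _ (by norm_num))
    rw [e2, neg_mul, e1]
    linarith
  obtain ⟨-, u⟩ := up_det4 (θ := L ^ (-(1 / 2) : ℝ)) (θ2 := L ^ (-(3 / 5) : ℝ))
    (η := L ^ (-(13 / 20) : ℝ)) (δ1 := L ^ (7 / 10 : ℝ)) (δ2 := L ^ (7 / 10 : ℝ)) hy1' hX2 hXy k
    hk1 c hc hδ0.le hM (Real.rpow_nonneg hL0.le _) h1 (Real.rpow_nonneg hL0.le _) h2' h2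
    (Real.rpow_pos_of_pos hL0 _) (hone _ (by norm_num)) h6 (hent y hy1 X hyX hXy)
  refine ⟨y, by linarith, ?_⟩
  have hLLy := LL_le hee hyX'
  -- error terms
  set U := L ^ (89 / 100 : ℝ) with hU
  have hU0 : 0 < U := Real.rpow_pos_of_pos hL0 _
  have hfin : 1000 * U ≤ L ^ (9 / 10 : ℝ) := by
    have e1 : V * U = L ^ (9 / 10 : ℝ) := by rw [hV, hU, hadd]; norm_num
    rw [← e1]
    exact mul_le_mul_of_nonneg_right b1 hU0.le
  have hV0 : 0 < V := by linarith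
  have hlogyV : Real.log y ≤ V := by linarith
  have hinv : 1 / Real.log 2 ≤ 2 := by
    rw [div_le_iff₀ hl2]; linarith
  have E1 : Real.log y / Real.log 2 * L ^ (3 / 5 : ℝ) ≤ 2 * U := by
    calc Real.log y / Real.log 2 * L ^ (3 / 5 : ℝ) = Real.log y * (1 / Real.log 2) *
          L ^ (3 / 5 : ℝ) := by ring
      _ ≤ V * 2 * L ^ (3 / 5 : ℝ) := by
          apply mul_le_mul_of_nonneg_right _ hw0.le
          exact mul_le_mul hlogyV hinv (by positivity) hV0.le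
      _ = 2 * (V * L ^ (3 / 5 : ℝ)) := by ring
      _ ≤ 2 * U := by
          rw [hV, hadd]
          exact mul_le_mul_of_nonneg_left (hmono _ _ (by norm_num)) (by norm_num)
  have E2 : 40 * Real.sqrt (y / X) * (y / Real.log y) ≤ 40 * U := by
    have e1 : y / X ≤ L ^ (-(24 / 100) : ℝ) := by
      rw [div_le_iff₀ hX0, hX, hadd]
      refine hyV.trans (hmono _ _ (by norm_num))
    have e2 : Real.sqrt (y / X) ≤ L ^ (-(12 / 100) : ℝ) := by
      rw [Real.sqrt_le_left (Real.rpow_nonneg hL0.le _)]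
      refine e1.trans (le_of_eq ?_)
      rw [← Real.rpow_natCast, ← Real.rpow_mul hL0.le]
      norm_num
    have e3 : y / Real.log y ≤ L ^ (101 / 100 : ℝ) :=
      (div_le_self hy0.le (by linarith)).trans hyV
    calc 40 * Real.sqrt (y / X) * (y / Real.log y) ≤
          40 * L ^ (-(12 / 100) : ℝ) * L ^ (101 / 100 : ℝ) :=
          mul_le_mul (mul_le_mul_of_nonneg_left e2 (by norm_num)) e3 (by positivity)
            (by positivity)
      _ = 40 * (L ^ (-(12 / 100) : ℝ) * L ^ (101 / 100 : ℝ)) := by ring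
      _ = 40 * U := by rw [hadd, hU]; norm_num
  have E3 : 3 * Real.log y ^ 2 * Real.sqrt y ≤ 3 * U := by
    have e1 : Real.log y ^ 2 ≤ V ^ 2 := pow_le_pow_left₀ hlogy0.le hlogyV 2
    have e2 : Real.sqrt y ≤ L ^ (505 / 1000 : ℝ) := by
      rw [Real.sqrt_le_left (Real.rpow_nonneg hL0.le _)]
      refine hyV.trans (le_of_eq ?_)
      rw [← Real.rpow_natCast, ← Real.rpow_mul hL0.le]
      norm_num
    have e3 : V ^ 2 * L ^ (505 / 1000 : ℝ) ≤ U := by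
      rw [hV, ← Real.rpow_natCast, ← Real.rpow_mul hL0.le, hadd]
      exact hmono _ _ (by norm_num)
    calc 3 * Real.log y ^ 2 * Real.sqrt y = 3 * (Real.log y ^ 2 * Real.sqrt y) := by ring
      _ ≤ 3 * (V ^ 2 * L ^ (505 / 1000 : ℝ)) := by
          apply mul_le_mul_of_nonneg_left _ (by norm_num)
          exact mul_le_mul e1 e2 (Real.sqrt_nonneg _) (by positivity)
      _ ≤ 3 * U := by linarith
  have E4 : L ^ (7 / 10 : ℝ) ≤ U := hmono _ _ (by norm_num)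
  have hVU : V ≤ U := hmono _ _ (by norm_num)
  have E5 : Real.log 8 + Real.log X ≤ 2 * U := by
    rw [hlogX]; linarith
  have E6 : Real.log y / Real.log 2 * (L + L ^ (3 / 5 : ℝ)) =
      L * Real.log y / Real.log 2 + Real.log y / Real.log 2 * L ^ (3 / 5 : ℝ) := by ring
  rw [E6] at u
  linarith

theorem up4 : ∀ᶠ k : ℕ in atTop, ∀ c : ℝ,
    Tendsto (fun n : ℕ => (gk k n : ℝ) / n) atTop (𝓝 c) → ∃ y : ℝ, 2 ≤ y ∧
    -Real.log (1 - c) ≤ Real.log k * Real.log y / Real.log 2 - LL y +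
      Real.log k ^ (9 / 10 : ℝ) := by
  have hlog : Tendsto (fun k : ℕ => Real.log k) atTop atTop :=
    Real.tendsto_log_atTop.comp tendsto_natCast_atTop_atTop
  filter_upwards [hlog.eventually up_L] with k hk c hc
  exact hk k rfl c hc

end Pool.Agent.H96.LK4
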