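import Pool.Agent.H96.LK4.Core2
import Pool.Agent.H96.LK4.CondTail
import Pool.Agent.H96.LK4.Dual
import Pool.Agent.H96.LK3.UpMain

/-!
# LK4 UpDet: the upper bound for `-log (1 - c_k)` with explicit hypotheses
(as `UpDet_main` of LK3/UpMain, with `core2`, `tail_cond`, `dual` and `q = ff y`)
-/

set_option autoImplicit false

namespace Pool.Agent.H96.LK4

open Finset Filter Topology Pool.Agent.H96.KMF Pool.Agent.H96.LK3

theorem up_det4 {y X δ1 δ2 θ θ2 η M : ℝ} (hy : 1 < y) (hX2 : 2 ≤ X) (hX : X ≤ y ^ (5 / 4 : ℝ))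
    (k : ℕ) (hk : 1 ≤ k) (c : ℝ) (hc : Tendsto (fun n : ℕ => (gk k n : ℝ) / n) atTop (𝓝 c))
    (hδ1 : 0 ≤ δ1) (hM : HH y X = M)
    (hθ : 0 ≤ θ) (h1 : θ * Real.log (8 * k) - (θ - θ ^ 2 / 2) * M ≤ -3)
    (hθ2 : 0 ≤ θ2) (hθ2' : θ2 * Real.log X ≤ 1)
    (h2 : -θ2 * δ1 + θ2 ^ 2 * Real.log X ^ 2 * ∑ p ∈ PP X, ff y p ≤ -3)
    (h4 : 0 < η) (h5 : η ≤ 1) (h6 : -η * δ2 + η ^ 2 * (PP X).card ≤ -3)
    (h7 : ∑ p ∈ PP X, Real.binEntropy (ff y p * rr y p) ≤ ∑ p ∈ PP X, Real.binEntropy (ff y p)) :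
    c < 1 ∧ -Real.log (1 - c) ≤ Real.log y / Real.log 2 * M - ∑ p ∈ PP X, lw y p + δ1 + δ2 +
      Real.log 8 + Real.log X := by
  have hy0 : 0 < y := by linarith
  have hl2 : 0 < Real.log 2 := Real.log_pos (by norm_num)
  set P := PP X with hP
  set q : ℕ → ℝ := ff y with hq
  set r : ℕ → ℝ := rr y with hr
  have hPp : ∀ p ∈ P, p.Prime := fun p hp => (mem_PP.mp hp).2
  have hPr : ∀ p ∈ P, (1 : ℝ) < p ∧ (p : ℝ) ≤ X := by
    intro p hp
    refine ⟨by exact_mod_cast (hPp p hp).one_lt, ?_⟩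
    exact (Nat.le_floor_iff (by linarith)).mp (mem_PP.mp hp).1
  have hq01 : ∀ p ∈ P, 0 ≤ q p ∧ q p ≤ 1 := fun p hp =>
    ⟨(ff_bounds hy (hPp p hp).one_lt.le).1.le, (ff_bounds hy (hPp p hp).one_lt.le).2⟩
  have hr01 : ∀ p ∈ P, 0 ≤ r p ∧ r p ≤ 1 := fun p hp => by
    have := rr_bounds hy (hPp p hp).one_lt.le
    exact ⟨by linarith [this.1], this.2.le⟩
  have hkr : (0 : ℝ) < k := by exact_mod_cast hk
  set lm := ∑ p ∈ P, q p * Real.log p + δ1 with hlm
  set m := Real.exp lm with hm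
  set E := ∑ p ∈ P, Real.binEntropy (q p * r p) with hE
  have he3 : Real.exp (-3) ≤ 1 / 8 := by
    rw [Real.exp_neg, inv_eq_one_div]
    apply one_div_le_one_div_of_le (by norm_num)
    have e1 : (2.7 : ℝ) ^ 3 ≤ Real.exp 3 := by
      have := Real.exp_one_gt_d9
      rw [show (3 : ℝ) = ((3 : ℕ) : ℝ) * 1 by norm_num, Real.exp_nat_mul]
      exact pow_le_pow_left₀ (by norm_num) (by linarith) 3
    norm_num at e1 ⊢
    linarith
  have t1 : ∑ A ∈ P.powerset, W P q A *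
      ∑ D ∈ A.powerset.filter (fun D => 1 < 8 * (k : ℝ) * W A r D), W A r D ≤ 1 / 8 := by
    refine (tail_cond P q r hq01 (fun p hp => ?_) (8 * k) θ (by positivity) hθ).trans
      (le_trans ?_ he3)
    · have e1 := rr_bounds hy (hPp p hp).one_lt.le
      exact ⟨e1.1, e1.2, rr_log hy (hPp p hp).one_lt.le ((hPr p hp).2.trans hX)⟩
    · apply Real.exp_le_exp.mpr
      have e2 : ∑ p ∈ P, q p * Real.binEntropy (r p) = M := hM
      rw [e2]
      exact h1
  have t2 : ∑ A ∈ P.powerset.filter (fun A => m < ((∏ p ∈ A, p : ℕ) : ℝ)), W P q A ≤ 1 / 8 := by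
    refine (W_tail_prod P hPp q hq01 θ2 m hθ2 (Real.exp_pos _)).trans (le_trans ?_ he3)
    apply Real.exp_le_exp.mpr
    rw [hm, Real.log_exp]
    have e1 : ∑ p ∈ P, q p * ((p : ℝ) ^ θ2 - 1) ≤
        ∑ p ∈ P, (θ2 * (q p * Real.log p) + θ2 ^ 2 * Real.log X ^ 2 * q p) := by
      refine Finset.sum_le_sum fun p hp => ?_
      obtain ⟨a1, a2⟩ := hPr p hp
      have a3 : 0 ≤ Real.log p := Real.log_nonneg a1.le
      have a4 : Real.log p ≤ Real.log X := Real.log_le_log (by linarith) a2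
      have a5 : (p : ℝ) ^ θ2 = Real.exp (θ2 * Real.log p) := by
        rw [Real.rpow_def_of_pos (by linarith), mul_comm]
      have a6 : θ2 * Real.log p ≤ θ2 * Real.log X := mul_le_mul_of_nonneg_left a4 hθ2
      have a7 : 0 ≤ θ2 * Real.log p := mul_nonneg hθ2 a3
      have a8 := Real.abs_exp_sub_one_sub_id_le (x := θ2 * Real.log p)
        (by rw [abs_of_nonneg a7]; linarith)
      have a9 := (abs_le.mp a8).2
      have a10 : (p : ℝ) ^ θ2 - 1 ≤ θ2 * Real.log p + θ2 ^ 2 * Real.log X ^ 2 := by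
        rw [a5]
        have : (θ2 * Real.log p) ^ 2 ≤ (θ2 * Real.log X) ^ 2 :=
          pow_le_pow_left₀ a7 a6 2
        rw [mul_pow θ2 (Real.log X)] at this
        linarith
      have a11 := mul_le_mul_of_nonneg_left a10 (hq01 p hp).1
      linarith
    have s1 : ∑ p ∈ P, θ2 * (q p * Real.log p) = θ2 * ∑ p ∈ P, q p * Real.log p :=
      (Finset.mul_sum _ _ _).symm
    have s2 : ∑ p ∈ P, θ2 ^ 2 * Real.log X ^ 2 * q p = θ2 ^ 2 * Real.log X ^ 2 * ∑ p ∈ P, q p :=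
      (Finset.mul_sum _ _ _).symm
    rw [Finset.sum_add_distrib, s1, s2] at e1
    rw [hlm]
    have e2 : -θ2 * (∑ p ∈ P, q p * Real.log p + δ1) = -(θ2 * ∑ p ∈ P, q p * Real.log p) +
        -θ2 * δ1 := by ring
    rw [e2]
    linarith
  have hlm0 : 0 ≤ lm := by
    rw [hlm]
    refine add_nonneg (Finset.sum_nonneg fun p hp => mul_nonneg (hq01 p hp).1 ?_) hδ1
    exact Real.log_nonneg (hPr p hp).1.le
  have hXf : 2 ≤ ⌊X⌋₊ := Nat.le_floor (by exact_mod_cast hX2)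
  have hmain := conv P hPp ⌊X⌋₊ (by omega) (fun p hp => (mem_PP.mp hp).1) k m
    (Real.exp (E - δ2) / 8) (by rw [hm]; exact Real.one_le_exp hlm0) (by positivity)
    (fun S hS => core2 P hPp q r hq01 hr01 k hk S hS m η δ2 E t1 t2 h4 h5 h6 h7 le_rfl) c hc
  have hXr : (0 : ℝ) < (⌊X⌋₊ : ℝ) := by exact_mod_cast (by omega : 0 < ⌊X⌋₊)
  have hXle : (⌊X⌋₊ : ℝ) ≤ X := Nat.floor_le (by linarith)
  have hm0 : 0 < m := Real.exp_pos _
  have hpos : 0 < 1 - c := lt_of_lt_of_le (by positivity) hmain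
  refine ⟨by linarith, ?_⟩
  have hlog := Real.log_le_log (by positivity) hmain
  rw [Real.log_div (by positivity) (by positivity), Real.log_div (by positivity) (by norm_num),
    Real.log_exp, Real.log_mul hXr.ne' hm0.ne', hm, Real.log_exp] at hlog
  have hlX : Real.log (⌊X⌋₊ : ℝ) ≤ Real.log X := Real.log_le_log hXr hXle
  have hid : ∑ p ∈ P, q p * Real.log p - E ≤
      Real.log y / Real.log 2 * M - ∑ p ∈ P, lw y p := by
    have e1 : ∑ p ∈ P, (q p * Real.log p - Real.binEntropy (q p * r p)) ≤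
        ∑ p ∈ P, (Real.log y / Real.log 2 * (q p * Real.binEntropy (r p)) - lw y p) :=
      Finset.sum_le_sum fun p hp => dual hy (hPp p hp).one_lt
    have e2 : ∑ p ∈ P, q p * Real.binEntropy (r p) = M := hM
    rw [Finset.sum_sub_distrib, Finset.sum_sub_distrib, ← Finset.mul_sum, e2] at e1
    exact e1
  rw [hlm] at hlog
  linarith

end Pool.Agent.H96.LK4
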